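import Pool.Agent.Work.MP_6241b7_co.Frac

/-!
# Embedding oriented trees layer by layer

The vertices of the tree are sorted by their distance to a directed path; the layers are embedded
from the inside to the outside, each layer being placed in a small absorbing set.
-/

set_option autoImplicit false

open Finset

namespace Pool.Agent.Work.MP_6241b7_co.Frac

section Tree

variable {k m : ℕ}

/-- distance to the set of values of `p` -/
noncomputable def ht (G : SimpleGraph (Fin (k + 1))) (p : Fin (m + 1) → Fin (k + 1))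
    (v : Fin (k + 1)) : ℕ :=
  (Finset.univ : Finset (Fin (m + 1))).inf' ⟨0, Finset.mem_univ _⟩ (fun i => G.dist (p i) v)

theorem ht_le (G : SimpleGraph (Fin (k + 1))) (p : Fin (m + 1) → Fin (k + 1)) (i : Fin (m + 1))
    (v : Fin (k + 1)) : ht G p v ≤ G.dist (p i) v :=
  Finset.inf'_le _ (Finset.mem_univ i)

theorem exists_ht (G : SimpleGraph (Fin (k + 1))) (p : Fin (m + 1) → Fin (k + 1))
    (v : Fin (k + 1)) : ∃ i, ht G p v = G.dist (p i) v := by
  obtain ⟨i, -, hi⟩ := Finset.exists_mem_eq_inf' (s := (Finset.univ : Finset (Fin (m + 1))))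
    ⟨0, Finset.mem_univ _⟩ (fun i => G.dist (p i) v)
  exact ⟨i, hi⟩

theorem ht_adj {G : SimpleGraph (Fin (k + 1))} (hG : G.Connected) (p : Fin (m + 1) → Fin (k + 1))
    {u v : Fin (k + 1)} (h : G.Adj u v) : ht G p v ≤ ht G p u + 1 := by
  obtain ⟨i, hi⟩ := exists_ht G p u
  have h1 := ht_le G p i v
  have h2 := hG.dist_triangle (u := p i) (v := u) (w := v)
  have h3 : G.dist u v = 1 := SimpleGraph.dist_eq_one_iff_adj.2 h
  omega

theorem ht_eq_zero {G : SimpleGraph (Fin (k + 1))} (hG : G.Connected)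
    (p : Fin (m + 1) → Fin (k + 1)) {v : Fin (k + 1)} : ht G p v = 0 ↔ ∃ i, p i = v := by
  constructor
  · intro h
    obtain ⟨i, hi⟩ := exists_ht G p v
    exact ⟨i, hG.dist_eq_zero_iff.1 (hi ▸ h)⟩
  · rintro ⟨i, rfl⟩
    have h1 := ht_le G p i (p i)
    rw [SimpleGraph.dist_self] at h1
    omega

theorem exists_par {G : SimpleGraph (Fin (k + 1))} (hG : G.Connected)
    (p : Fin (m + 1) → Fin (k + 1)) {v : Fin (k + 1)} (hv : 0 < ht G p v) :
    ∃ u, G.Adj v u ∧ ht G p u + 1 = ht G p v := by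
  obtain ⟨i, hi⟩ := exists_ht G p v
  obtain ⟨w, hw⟩ := hG.exists_walk_length_eq_dist v (p i)
  cases w with
  | nil => rw [hi, SimpleGraph.dist_self] at hv; omega
  | @cons _ u _ hadj w' =>
    refine ⟨u, hadj, ?_⟩
    have h1 : G.dist u (p i) ≤ w'.length := SimpleGraph.dist_le w'
    rw [SimpleGraph.Walk.length_cons] at hw
    have h3 := ht_le G p i u
    have h4 := ht_adj hG p hadj.symm
    rw [SimpleGraph.dist_comm] at hi h3
    omega

theorem edges {T : Fin (k + 1) → Fin (k + 1) → Prop} (hT : (SimpleGraph.fromRel T).IsTree)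
    {p : Fin (m + 1) → Fin (k + 1)} (hp : Function.Injective p)
    (hpT : ∀ i : Fin m, T (p i.castSucc) (p i.succ)) (par : Fin (k + 1) → Fin (k + 1))
    (hpar : ∀ v, 0 < ht (SimpleGraph.fromRel T) p v → (SimpleGraph.fromRel T).Adj v (par v) ∧
      ht (SimpleGraph.fromRel T) p (par v) + 1 = ht (SimpleGraph.fromRel T) p v) :
    (Finset.univ.filter (fun v => 0 < ht (SimpleGraph.fromRel T) p v)).card + m = k ∧
    ∀ a b, (SimpleGraph.fromRel T).Adj a b →
    (∃ i : Fin m, s(a, b) = s(p i.castSucc, p i.succ)) ∨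
      (0 < ht (SimpleGraph.fromRel T) p a ∧ b = par a) ∨
      (0 < ht (SimpleGraph.fromRel T) p b ∧ a = par b) := by
  classical
  set G := SimpleGraph.fromRel T with hG
  set E1 : Finset (Sym2 (Fin (k + 1))) :=
    Finset.univ.image (fun i : Fin m => s(p i.castSucc, p i.succ)) with hE1
  set S : Finset (Fin (k + 1)) := Finset.univ.filter (fun v => 0 < ht G p v) with hS
  set E2 : Finset (Sym2 (Fin (k + 1))) := S.image (fun v => s(v, par v)) with hE2
  have hconn := hT.connected
  have c1 : E1.card = m := by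
    rw [hE1, Finset.card_image_of_injective, Finset.card_univ, Fintype.card_fin]
    intro i j hij
    rcases Sym2.eq_iff.1 hij with ⟨h1, -⟩ | ⟨h1, h2⟩
    · exact Fin.castSucc_injective _ (hp h1)
    · have h3 := congrArg Fin.val (hp h1)
      have h4 := congrArg Fin.val (hp h2)
      simp at h3 h4
      omega
  have c2 : E2.card = S.card := by
    refine Finset.card_image_of_injOn ?_
    intro v hv w hw hvw
    have hv' := (Finset.mem_filter.1 hv).2
    have hw' := (Finset.mem_filter.1 hw).2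
    rcases Sym2.eq_iff.1 hvw with ⟨h1, -⟩ | ⟨h1, h2⟩
    · exact h1
    · have h3 := (hpar v hv').2
      have h4 := (hpar w hw').2
      rw [← h1] at h4
      rw [h2] at h3
      omega
  have c3 : S.card + (m + 1) = k + 1 := by
    have h1 : (Finset.univ.filter (fun v => ¬ 0 < ht G p v)) = Finset.univ.image p := by
      ext v
      simp only [Finset.mem_filter, Finset.mem_univ, true_and, Finset.mem_image]
      rw [Nat.pos_iff_ne_zero, not_not, ht_eq_zero hconn]
    have h2 := Finset.card_filter_add_card_filter_not (s := (Finset.univ : Finset (Fin (k + 1))))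
      (fun v => 0 < ht G p v)
    rw [h1, Finset.card_image_of_injective _ hp, Finset.card_univ, Finset.card_univ,
      Fintype.card_fin, Fintype.card_fin] at h2
    exact h2
  have hdisj : Disjoint E1 E2 := by
    rw [Finset.disjoint_left]
    intro e h1 h2
    obtain ⟨i, -, rfl⟩ := Finset.mem_image.1 h1
    obtain ⟨v, hv, hv2⟩ := Finset.mem_image.1 h2
    have hv' := (Finset.mem_filter.1 hv).2
    have hz : ∀ j, ht G p (p j) = 0 := fun j => (ht_eq_zero hconn p).2 ⟨j, rfl⟩
    rcases Sym2.eq_iff.1 hv2 with ⟨h3, -⟩ | ⟨h3, -⟩ <;>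
    · rw [h3, hz] at hv'
      omega
  have hsub : E1 ∪ E2 ⊆ G.edgeFinset := by
    intro e he
    rw [SimpleGraph.mem_edgeFinset]
    rcases Finset.mem_union.1 he with he | he
    · obtain ⟨i, -, rfl⟩ := Finset.mem_image.1 he
      rw [SimpleGraph.mem_edgeSet, hG, SimpleGraph.fromRel_adj]
      refine ⟨fun h => ?_, Or.inl (hpT i)⟩
      have h3 := congrArg Fin.val (hp h)
      simp at h3
    · obtain ⟨v, hv, rfl⟩ := Finset.mem_image.1 he
      rw [SimpleGraph.mem_edgeSet]
      exact (hpar v (Finset.mem_filter.1 hv).2).1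
  have hcard := hT.card_edgeFinset
  rw [Fintype.card_fin] at hcard
  have heq : E1 ∪ E2 = G.edgeFinset := by
    refine Finset.eq_of_subset_of_card_le hsub ?_
    rw [Finset.card_union_of_disjoint hdisj, c1, c2]
    omega
  refine ⟨by omega, fun a b hab => ?_⟩
  have h1 : s(a, b) ∈ E1 ∪ E2 := by
    rw [heq, SimpleGraph.mem_edgeFinset]
    exact hab
  rcases Finset.mem_union.1 h1 with h1 | h1
  · obtain ⟨i, -, hi⟩ := Finset.mem_image.1 h1
    exact Or.inl ⟨i, hi.symm⟩
  · obtain ⟨v, hv, hv2⟩ := Finset.mem_image.1 h1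
    have hv' := (Finset.mem_filter.1 hv).2
    rcases Sym2.eq_iff.1 hv2 with ⟨h3, h4⟩ | ⟨h3, h4⟩
    · rw [← h3, ← h4]
      exact Or.inr (Or.inl ⟨hv', rfl⟩)
    · rw [← h3, ← h4]
      exact Or.inr (Or.inr ⟨hv', rfl⟩)

end Tree

section Embed

variable {V ι : Type*} [DecidableEq V] [Fintype ι] [DecidableEq ι]

/-- embedding of the part at height at most `i` into `W` -/
def Emb (D : V → V → Prop) (T : ι → ι → Prop) (h : ι → ℕ) (i : ℕ) (W : Finset V) : Prop :=
  ∃ f : ι → V, (∀ a, h a ≤ i → f a ∈ W) ∧ (∀ a b, h a ≤ i → h b ≤ i → f a = f b → a = b) ∧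
    ∀ a b, h a ≤ i → h b ≤ i → T a b → D (f a) (f b)

/-- vertices of height `i + 1` attached by an arc from their parent -/
def upL (T : ι → ι → Prop) [DecidableRel T] (h : ι → ℕ) (par : ι → ι) (i : ℕ) : Finset ι :=
  Finset.univ.filter (fun v => h v = i + 1 ∧ T (par v) v)

/-- vertices of height `i + 1` not attached by an arc from their parent -/
def dnL (T : ι → ι → Prop) [DecidableRel T] (h : ι → ℕ) (par : ι → ι) (i : ℕ) : Finset ι :=
  Finset.univ.filter (fun v => h v = i + 1 ∧ ¬ T (par v) v)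

theorem emb_step {D : V → V → Prop} [DecidableRel D] (hirr : ∀ v, ¬ D v v) {T : ι → ι → Prop}
    [DecidableRel T] (hTas : ∀ a b, T a b → ¬ T b a)
    {h : ι → ℕ} {par : ι → ι} {i : ℕ} (hpar : ∀ v, h v = i + 1 → h (par v) ≤ i)
    (huniq : ∀ v, h v = i + 1 → ∀ z, h z ≤ i + 1 → (T v z ∨ T z v) → z = par v)
    {μ : V → ℝ} (hμ : ∀ v, 0 ≤ μ v) {η L : ℝ} (h0 : 0 < η) (h1 : η < 1)
    {ρ : Finset V → ℝ} (hemp : ρ ∅ ≤ 0) (hun : ∀ A B, ρ (A ∪ B) ≤ ρ A + ρ B)
    (hind : ∀ S, Ind D S → ρ S ≤ 1) (hsmall : ∀ B : Finset V, ∑ v ∈ B, μ v ≤ 1 → ρ B ≤ 1)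
    (hc : ∀ W : Finset V, ∑ v ∈ W, μ v ≤ Real.exp L) {x : ℝ}
    (hprev : ∀ W, x < ρ W → Emb D T h i W) (W : Finset V)
    (hW : x + ((num η L (upL T h par i).card : ℝ) + num η L (dnL T h par i).card + 2) < ρ W) :
    Emb D T h (i + 1) W := by
  obtain ⟨K1, hK1W, hK1, hb1⟩ := absorb_deg D hirr μ hμ h0.le h1 ρ hemp hun hind hsmall W
    (upL T h par i).card (num η L (upL T h par i).card)
    (num_spec h0 h1 _ (Finset.sum_nonneg fun v _ => hμ v) (hc W))
  have hind' : ∀ S, Ind (fun x y => D y x) S → ρ S ≤ 1 := fun S hS =>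
    hind S fun x hx y hy => hS y hy x hx
  obtain ⟨K2, hK2W, hK2, hb2⟩ := absorb_deg (fun x y => D y x) hirr μ hμ h0.le h1 ρ hemp hun hind'
    hsmall (W \ K1) (dnL T h par i).card (num η L (dnL T h par i).card)
    (num_spec h0 h1 _ (Finset.sum_nonneg fun v _ => hμ v) (hc _))
  set W' : Finset V := W.filter (fun v => v ∉ K1 ∧ v ∉ K2 ∧
    (upL T h par i).card ≤ (K1.filter (fun u => D v u)).card ∧
    (dnL T h par i).card ≤ (K2.filter (fun u => D u v)).card) with hW'
  have hWeq : W = K1 ∪ (K2 ∪ (((W \ K1).filter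
      (fun v => (K1.filter (fun u => D v u)).card < (upL T h par i).card)) ∪
      ((((W \ K1) \ K2).filter
        (fun v => (K2.filter (fun u => D u v)).card < (dnL T h par i).card)) ∪ W'))) := by
    ext v
    constructor
    · intro hv
      simp only [Finset.mem_union, Finset.mem_filter, Finset.mem_sdiff, hW']
      by_cases a1 : v ∈ K1
      · exact Or.inl a1
      · by_cases a2 : v ∈ K2
        · exact Or.inr (Or.inl a2)
        · rcases Nat.lt_or_ge (K1.filter (fun u => D v u)).card (upL T h par i).card with a3 | a3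
          · exact Or.inr (Or.inr (Or.inl ⟨⟨hv, a1⟩, a3⟩))
          · rcases Nat.lt_or_ge (K2.filter (fun u => D u v)).card (dnL T h par i).card with a4 | a4
            · exact Or.inr (Or.inr (Or.inr (Or.inl ⟨⟨⟨hv, a1⟩, a2⟩, a4⟩)))
            · exact Or.inr (Or.inr (Or.inr (Or.inr ⟨hv, a1, a2, a3, a4⟩)))
    · intro hv
      simp only [Finset.mem_union, Finset.mem_filter, Finset.mem_sdiff, hW'] at hv
      rcases hv with hv | hv | hv | hv | hv
      · exact hK1W hv
      · exact (Finset.mem_sdiff.1 (hK2W hv)).1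
      · exact hv.1.1
      · exact hv.1.1.1
      · exact hv.1
  have hρ : x < ρ W' := by
    have e1 := hun K1 (K2 ∪ (((W \ K1).filter
      (fun v => (K1.filter (fun u => D v u)).card < (upL T h par i).card)) ∪
      ((((W \ K1) \ K2).filter
        (fun v => (K2.filter (fun u => D u v)).card < (dnL T h par i).card)) ∪ W')))
    rw [← hWeq] at e1
    have e2 := hun K2 (((W \ K1).filter
      (fun v => (K1.filter (fun u => D v u)).card < (upL T h par i).card)) ∪
      ((((W \ K1) \ K2).filter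
        (fun v => (K2.filter (fun u => D u v)).card < (dnL T h par i).card)) ∪ W'))
    have e3 := hun ((W \ K1).filter
      (fun v => (K1.filter (fun u => D v u)).card < (upL T h par i).card))
      ((((W \ K1) \ K2).filter
        (fun v => (K2.filter (fun u => D u v)).card < (dnL T h par i).card)) ∪ W')
    have e4 := hun (((W \ K1) \ K2).filter
        (fun v => (K2.filter (fun u => D u v)).card < (dnL T h par i).card)) W'
    linarith
  obtain ⟨f, hfW, hfinj, hfT⟩ := hprev W' hρ
  have hW'mem : ∀ v ∈ W', v ∈ W ∧ v ∉ K1 ∧ v ∉ K2 ∧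
      (upL T h par i).card ≤ (K1.filter (fun u => D v u)).card ∧
      (dnL T h par i).card ≤ (K2.filter (fun u => D u v)).card := fun v hv =>
    Finset.mem_filter.1 hv
  have hmemU : ∀ v, v ∈ upL T h par i ↔ h v = i + 1 ∧ T (par v) v := fun v => by
    simp [upL]
  have hmemD : ∀ v, v ∈ dnL T h par i ↔ h v = i + 1 ∧ ¬ T (par v) v := fun v => by
    simp [dnL]
  obtain ⟨g1, hg1, hg1inj⟩ := sdr (upL T h par i) (fun w => K1.filter (fun u => D (f (par w)) u)) f
    (fun w hw => (hW'mem _ (hfW _ (hpar w ((hmemU w).1 hw).1))).2.2.2.1)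
  obtain ⟨g2, hg2, hg2inj⟩ := sdr (dnL T h par i) (fun w => K2.filter (fun u => D u (f (par w)))) f
    (fun w hw => (hW'mem _ (hfW _ (hpar w ((hmemD w).1 hw).1))).2.2.2.2)
  have hg1' : ∀ w, h w = i + 1 → T (par w) w → g1 w ∈ K1 ∧ D (f (par w)) (g1 w) := fun w hw hw2 =>
    Finset.mem_filter.1 (hg1 w ((hmemU w).2 ⟨hw, hw2⟩))
  have hg2' : ∀ w, h w = i + 1 → ¬ T (par w) w → g2 w ∈ K2 ∧ D (g2 w) (f (par w)) :=
    fun w hw hw2 => Finset.mem_filter.1 (hg2 w ((hmemD w).2 ⟨hw, hw2⟩))
  have hK12 : ∀ v, v ∈ K1 → v ∈ K2 → False := fun v a1 a2 => (Finset.mem_sdiff.1 (hK2W a2)).2 a1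
  refine ⟨fun v => if h v ≤ i then f v else if T (par v) v then g1 v else g2 v, ?_, ?_, ?_⟩
  · intro a ha
    by_cases a1 : h a ≤ i
    · simp only [a1, if_true]
      exact (hW'mem _ (hfW a a1)).1
    · have a2 : h a = i + 1 := by omega
      by_cases a3 : T (par a) a
      · simp only [a1, a3, if_true, if_false]
        exact hK1W (hg1' a a2 a3).1
      · simp only [a1, a3, if_false]
        exact (Finset.mem_sdiff.1 (hK2W (hg2' a a2 a3).1)).1
  · intro a b ha hb hab
    dsimp only at hab
    by_cases a1 : h a ≤ i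
    · by_cases b1 : h b ≤ i
      · rw [if_pos a1, if_pos b1] at hab
        exact hfinj a b a1 b1 hab
      · have b2 : h b = i + 1 := by omega
        have a4 := hW'mem _ (hfW a a1)
        rw [if_pos a1, if_neg b1] at hab
        by_cases b3 : T (par b) b
        · rw [if_pos b3] at hab
          rw [hab] at a4
          exact absurd (hg1' b b2 b3).1 a4.2.1
        · rw [if_neg b3] at hab
          rw [hab] at a4
          exact absurd (hg2' b b2 b3).1 a4.2.2.1
    · have a2 : h a = i + 1 := by omega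
      by_cases b1 : h b ≤ i
      · have b4 := hW'mem _ (hfW b b1)
        rw [if_neg a1, if_pos b1] at hab
        by_cases a3 : T (par a) a
        · rw [if_pos a3] at hab
          rw [← hab] at b4
          exact absurd (hg1' a a2 a3).1 b4.2.1
        · rw [if_neg a3] at hab
          rw [← hab] at b4
          exact absurd (hg2' a a2 a3).1 b4.2.2.1
      · have b2 : h b = i + 1 := by omega
        rw [if_neg a1, if_neg b1] at hab
        by_cases a3 : T (par a) a
        · by_cases b3 : T (par b) b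
          · rw [if_pos a3, if_pos b3] at hab
            exact hg1inj a ((hmemU a).2 ⟨a2, a3⟩) b ((hmemU b).2 ⟨b2, b3⟩) hab
          · rw [if_pos a3, if_neg b3] at hab
            exact (hK12 _ (hg1' a a2 a3).1 (hab ▸ (hg2' b b2 b3).1)).elim
        · by_cases b3 : T (par b) b
          · rw [if_neg a3, if_pos b3] at hab
            exact (hK12 _ (hg1' b b2 b3).1 (hab ▸ (hg2' a a2 a3).1)).elim
          · rw [if_neg a3, if_neg b3] at hab
            exact hg2inj a ((hmemD a).2 ⟨a2, a3⟩) b ((hmemD b).2 ⟨b2, b3⟩) hab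
  · intro a b ha hb hab
    dsimp only
    by_cases a1 : h a ≤ i
    · by_cases b1 : h b ≤ i
      · rw [if_pos a1, if_pos b1]
        exact hfT a b a1 b1 hab
      · have b2 : h b = i + 1 := by omega
        have e1 : a = par b := huniq b b2 a ha (Or.inr hab)
        have b3 : T (par b) b := e1 ▸ hab
        rw [if_pos a1, if_neg b1, if_pos b3, e1]
        exact (hg1' b b2 b3).2
    · have a2 : h a = i + 1 := by omega
      have e1 : b = par a := huniq a a2 b hb (Or.inl hab)
      have b1 : h b ≤ i := by rw [e1]; exact hpar a a2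
      have a3 : ¬ T (par a) a := by
        rw [← e1]
        exact hTas a b hab
      rw [if_neg a1, if_pos b1, if_neg a3, e1]
      exact (hg2' a a2 a3).2

end Embed

section Main

variable {V : Type*} [DecidableEq V] {k m : ℕ}

theorem emb_all {D : V → V → Prop} [DecidableRel D] (hirr : ∀ v, ¬ D v v)
    {T : Fin (k + 1) → Fin (k + 1) → Prop} [DecidableRel T] (hTas : ∀ a b, T a b → ¬ T b a)
    (hT : (SimpleGraph.fromRel T).IsTree)
    {p : Fin (m + 1) → Fin (k + 1)} (hp : Function.Injective p)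
    (hpT : ∀ i : Fin m, T (p i.castSucc) (p i.succ)) (par : Fin (k + 1) → Fin (k + 1))
    (hpar : ∀ v, 0 < ht (SimpleGraph.fromRel T) p v → (SimpleGraph.fromRel T).Adj v (par v) ∧
      ht (SimpleGraph.fromRel T) p (par v) + 1 = ht (SimpleGraph.fromRel T) p v)
    {μ : V → ℝ} (hμ : ∀ v, 0 ≤ μ v) {η L : ℝ} (h0 : 0 < η) (h1 : η < 1)
    {ρ : Finset V → ℝ} (hemp : ρ ∅ ≤ 0) (hun : ∀ A B, ρ (A ∪ B) ≤ ρ A + ρ B)
    (hind : ∀ S, Ind D S → ρ S ≤ 1) (hsmall : ∀ B : Finset V, ∑ v ∈ B, μ v ≤ 1 → ρ B ≤ 1)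
    (hc : ∀ W : Finset V, ∑ v ∈ W, μ v ≤ Real.exp L) (i : ℕ) : ∀ W : Finset V,
    (m : ℝ) + ∑ j ∈ Finset.range i,
      ((num η L (upL T (ht (SimpleGraph.fromRel T) p) par j).card : ℝ) +
        num η L (dnL T (ht (SimpleGraph.fromRel T) p) par j).card + 2) < ρ W →
    Emb D T (ht (SimpleGraph.fromRel T) p) i W := by
  have hTirr : ∀ a, ¬ T a a := fun a h => hTas a a h h
  have hedge := (edges hT hp hpT par hpar).2
  have hconn := hT.connected
  have hadj : ∀ a b, T a b → (SimpleGraph.fromRel T).Adj a b := fun a b hab => by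
    rw [SimpleGraph.fromRel_adj]
    exact ⟨fun h => hTirr a (by rw [← h] at hab; exact hab), Or.inl hab⟩
  have hz : ∀ j, ht (SimpleGraph.fromRel T) p (p j) = 0 := fun j =>
    (ht_eq_zero hconn p).2 ⟨j, rfl⟩
  induction i with
  | zero =>
    intro W hW
    rw [Finset.range_zero, Finset.sum_empty, add_zero] at hW
    obtain ⟨q, hqW, hqD, hqinj⟩ := exists_path hirr ρ hemp hun hind hW
    have hidx : ∀ v, ht (SimpleGraph.fromRel T) p v ≤ 0 → ∃ j, p j = v := fun v hv =>
      (ht_eq_zero hconn p).1 (by omega)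
    choose! idx hidx using hidx
    have hidx' : ∀ j, idx (p j) = j := fun j => hp (hidx (p j) (by rw [hz]))
    refine ⟨fun v => q (idx v), fun a _ => hqW _ (by omega), ?_, ?_⟩
    · intro a b ha hb hab
      have h2 : idx a = idx b := Fin.ext (hqinj _ (by omega) _ (by omega) hab)
      rw [← hidx a ha, ← hidx b hb, h2]
    · intro a b ha hb hab
      rcases hedge a b (hadj a b hab) with ⟨j, hj⟩ | ⟨h2, -⟩ | ⟨h2, -⟩
      · rcases Sym2.eq_iff.1 hj with ⟨h3, h4⟩ | ⟨h3, h4⟩
        · change D (q (idx a)) (q (idx b))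
          rw [h3, h4, hidx', hidx']
          have h5 := hqD j j.2
          simpa using h5
        · rw [h3, h4] at hab
          exact absurd hab (hTas _ _ (hpT j))
      · omega
      · omega
  | succ i ih =>
    intro W hW
    rw [Finset.sum_range_succ, ← add_assoc] at hW
    refine emb_step hirr hTas (par := par) ?_ ?_ hμ h0 h1 hemp hun hind hsmall hc ih W hW
    · intro v hv
      have := (hpar v (by omega)).2
      omega
    · intro v hv z hz1 hvz
      have ha : (SimpleGraph.fromRel T).Adj v z := by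
        rcases hvz with h2 | h2
        · exact hadj _ _ h2
        · exact (hadj _ _ h2).symm
      rcases hedge v z ha with ⟨j, hj⟩ | ⟨h2, h3⟩ | ⟨h2, h3⟩
      · rcases Sym2.eq_iff.1 hj with ⟨h3, -⟩ | ⟨h3, -⟩ <;>
        · rw [h3, hz] at hv
          omega
      · exact h3
      · have h4 := (hpar z h2).2
        rw [← h3] at h4
        omega

theorem main {D : V → V → Prop} [DecidableRel D] [Fintype V] (hirr : ∀ v, ¬ D v v)
    {T : Fin (k + 1) → Fin (k + 1) → Prop} (hTas : ∀ a b, T a b → ¬ T b a)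
    (hT : (SimpleGraph.fromRel T).IsTree)
    {p : Fin (m + 1) → Fin (k + 1)} (hp : Function.Injective p)
    (hpT : ∀ i : Fin m, T (p i.castSucc) (p i.succ)) {r : ℕ}
    (hr : ∀ v, ∃ i, (SimpleGraph.fromRel T).dist (p i) v ≤ r)
    {μ : V → ℝ} (hμ : ∀ v, 0 ≤ μ v) {η L : ℝ} (h0 : 0 < η) (h1 : η < 1) (hL : 0 ≤ L)
    {ρ : Finset V → ℝ} (hemp : ρ ∅ ≤ 0) (hun : ∀ A B, ρ (A ∪ B) ≤ ρ A + ρ B)
    (hind : ∀ S, Ind D S → ρ S ≤ 1) (hsmall : ∀ B : Finset V, ∑ v ∈ B, μ v ≤ 1 → ρ B ≤ 1)
    (hc : ∑ v, μ v ≤ Real.exp L)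
    (hρ : (m : ℝ) + 2 / (1 - η) * ((k : ℝ) - m) + r * (4 / η * L + 4) < ρ Finset.univ) :
    m ≤ k ∧ ∃ f : Fin (k + 1) → V, Function.Injective f ∧ ∀ a b, T a b → D (f a) (f b) := by
  classical
  have hpar : ∀ v, 0 < ht (SimpleGraph.fromRel T) p v →
      ∃ u, (SimpleGraph.fromRel T).Adj v u ∧
        ht (SimpleGraph.fromRel T) p u + 1 = ht (SimpleGraph.fromRel T) p v := fun v hv =>
    exists_par hT.connected p hv
  choose! par hpar using hpar
  have hcard := (edges hT hp hpT par hpar).1
  have hhr : ∀ v, ht (SimpleGraph.fromRel T) p v ≤ r := fun v => by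
    obtain ⟨i, hi⟩ := hr v
    exact (ht_le _ p i v).trans hi
  have h2 : 0 < 1 - η := sub_pos.2 h1
  refine ⟨by omega, ?_⟩
  have hsum : (m : ℝ) + ∑ j ∈ Finset.range r,
      ((num η L (upL T (ht (SimpleGraph.fromRel T) p) par j).card : ℝ) +
        num η L (dnL T (ht (SimpleGraph.fromRel T) p) par j).card + 2) < ρ Finset.univ := by
    refine lt_of_le_of_lt ?_ hρ
    have e1 : ∀ j ∈ Finset.range r,
        ((num η L (upL T (ht (SimpleGraph.fromRel T) p) par j).card : ℝ) +
          num η L (dnL T (ht (SimpleGraph.fromRel T) p) par j).card + 2) ≤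
        (4 / η * L + 4) + 2 / (1 - η) * ((Finset.univ.filter
          (fun v => 0 < ht (SimpleGraph.fromRel T) p v)).filter
            (fun v => ht (SimpleGraph.fromRel T) p v - 1 = j)).card := by
      intro j _
      have e2 := num_le h0 h1 hL (upL T (ht (SimpleGraph.fromRel T) p) par j).card
      have e3 := num_le h0 h1 hL (dnL T (ht (SimpleGraph.fromRel T) p) par j).card
      have e4 : (upL T (ht (SimpleGraph.fromRel T) p) par j).card +
          (dnL T (ht (SimpleGraph.fromRel T) p) par j).card = ((Finset.univ.filter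
          (fun v => 0 < ht (SimpleGraph.fromRel T) p v)).filter
            (fun v => ht (SimpleGraph.fromRel T) p v - 1 = j)).card := by
        rw [upL, dnL, ← Finset.card_union_of_disjoint]
        · congr 1
          ext v
          simp only [Finset.mem_union, Finset.mem_filter, Finset.mem_univ, true_and]
          constructor
          · rintro (⟨h3, -⟩ | ⟨h3, -⟩) <;> omega
          · rintro ⟨h3, h4⟩
            have h5 : ht (SimpleGraph.fromRel T) p v = j + 1 := by omega
            by_cases h6 : T (par v) v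
            · exact Or.inl ⟨h5, h6⟩
            · exact Or.inr ⟨h5, h6⟩
        · rw [Finset.disjoint_left]
          intro v hv hv2
          exact (Finset.mem_filter.1 hv2).2.2 (Finset.mem_filter.1 hv).2.2
      have e5 : ((upL T (ht (SimpleGraph.fromRel T) p) par j).card : ℝ) +
          (dnL T (ht (SimpleGraph.fromRel T) p) par j).card = ((Finset.univ.filter
          (fun v => 0 < ht (SimpleGraph.fromRel T) p v)).filter
            (fun v => ht (SimpleGraph.fromRel T) p v - 1 = j)).card := by exact_mod_cast e4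
      rw [← e5]
      have e6 : 4 / η * L = 2 / η * L + 2 / η * L := by ring
      rw [e6]
      linarith
    have e7 := Finset.sum_le_sum e1
    have e10 : ∑ j ∈ Finset.range r, ((4 / η * L + 4) + 2 / (1 - η) * ((Finset.univ.filter
          (fun v => 0 < ht (SimpleGraph.fromRel T) p v)).filter
            (fun v => ht (SimpleGraph.fromRel T) p v - 1 = j)).card) =
        r * (4 / η * L + 4) + 2 / (1 - η) * (∑ j ∈ Finset.range r, ((Finset.univ.filter
          (fun v => 0 < ht (SimpleGraph.fromRel T) p v)).filter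
            (fun v => ht (SimpleGraph.fromRel T) p v - 1 = j)).card : ℕ) := by
      rw [Finset.sum_add_distrib, Finset.sum_const, Finset.card_range, nsmul_eq_mul,
        ← Finset.mul_sum, ← Nat.cast_sum]
    rw [e10] at e7
    have e8 : ∑ j ∈ Finset.range r, ((Finset.univ.filter
          (fun v => 0 < ht (SimpleGraph.fromRel T) p v)).filter
            (fun v => ht (SimpleGraph.fromRel T) p v - 1 = j)).card =
        (Finset.univ.filter (fun v => 0 < ht (SimpleGraph.fromRel T) p v)).card := by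
      refine (Finset.card_eq_sum_card_fiberwise fun v hv => ?_).symm
      have h3 := (Finset.mem_filter.1 hv).2
      have h4 := hhr v
      simp only [Finset.coe_range, Set.mem_Iio]
      omega
    rw [e8] at e7
    have e9 : ((Finset.univ.filter (fun v => 0 < ht (SimpleGraph.fromRel T) p v)).card : ℝ) =
        (k : ℝ) - m := by
      rw [eq_sub_iff_add_eq]
      exact_mod_cast hcard
    rw [e9] at e7
    linarith
  obtain ⟨f, -, hinj, hfT⟩ := emb_all hirr hTas hT hp hpT par hpar hμ h0 h1 hemp hun hind hsmall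
    (fun W => (Finset.sum_le_univ_sum_of_nonneg hμ).trans hc) r Finset.univ hsum
  exact ⟨f, fun a b hab => hinj a b (hhr a) (hhr b) hab, fun a b => hfT a b (hhr a) (hhr b)⟩

end Main

end Pool.Agent.Work.MP_6241b7_co.Frac
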