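import Mathlib

/-!
# Basic tools for Burr's conjecture: colourings of oriented graphs, degeneracy, critical subsets,
greedy choice of leaves.
-/

set_option autoImplicit false

open Finset

namespace Pool.Agent.Work.MP_6241b7_co

variable {V : Type*} [DecidableEq V]

/-- The vertex set `X` of the digraph `D` can be properly coloured with `n` colours. -/
def Col (D : V → V → Prop) (X : Finset V) (n : ℕ) : Prop :=
  ∃ c : V → ℕ, (∀ x ∈ X, c x < n) ∧ ∀ x ∈ X, ∀ y ∈ X, D x y → c x ≠ c y

omit [DecidableEq V] in
theorem Col.mono {D : V → V → Prop} {X Y : Finset V} {n m : ℕ} (h : Col D X n) (hY : Y ⊆ X)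
    (hm : n ≤ m) : Col D Y m := by
  obtain ⟨c, h1, h2⟩ := h
  exact ⟨c, fun x hx => (h1 x (hY hx)).trans_le hm, fun x hx y hy => h2 x (hY hx) y (hY hy)⟩

theorem Col.union {D : V → V → Prop} {X Y : Finset V} {n m : ℕ} (h : Col D X n) (h' : Col D Y m) :
    Col D (X ∪ Y) (n + m) := by
  obtain ⟨c, h1, h2⟩ := h
  obtain ⟨c', h1', h2'⟩ := h'
  refine ⟨fun x => if x ∈ X then c x else n + c' x, ?_, ?_⟩
  · intro x hx
    by_cases hxX : x ∈ X
    · simp only [hxX, if_true]
      have := h1 x hxX
      omega
    · have hxY : x ∈ Y := by
        rcases mem_union.1 hx with h | h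
        · exact absurd h hxX
        · exact h
      simp only [hxX, if_false]
      have := h1' x hxY
      omega
  · intro x hx y hy hD
    by_cases hxX : x ∈ X
    · by_cases hyX : y ∈ X
      · simp only [hxX, hyX, if_true]
        exact h2 x hxX y hyX hD
      · simp only [hxX, hyX, if_true, if_false]
        have := h1 x hxX
        omega
    · by_cases hyX : y ∈ X
      · simp only [hxX, hyX, if_true, if_false]
        have := h1 y hyX
        omega
      · simp only [hxX, hyX, if_false]
        have hxY : x ∈ Y := by
          rcases mem_union.1 hx with h | h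
          · exact absurd h hxX
          · exact h
        have hyY : y ∈ Y := by
          rcases mem_union.1 hy with h | h
          · exact absurd h hyX
          · exact h
        have := h2' x hxY y hyY hD
        omega

omit [DecidableEq V] in
theorem Col.of_indep {D : V → V → Prop} {X : Finset V} (h : ∀ x ∈ X, ∀ y ∈ X, ¬ D x y) :
    Col D X 1 :=
  ⟨fun _ => 0, fun _ _ => by norm_num, fun x hx y hy hD => absurd hD (h x hx y hy)⟩

omit [DecidableEq V] in
theorem Col.reverse {D : V → V → Prop} {X : Finset V} {n : ℕ} (h : Col (fun x y => D y x) X n) :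
    Col D X n := by
  obtain ⟨c, h1, h2⟩ := h
  exact ⟨c, h1, fun x hx y hy hD => (h2 y hy x hx hD).symm⟩

/-- adding a vertex with few neighbours -/
theorem Col.insert {D : V → V → Prop} (hirr : ∀ x, ¬ D x x) {X : Finset V} {n : ℕ} {v : V}
    (hv : v ∉ X) (h : Col D X n)
    [DecidablePred (fun y => D v y ∨ D y v)]
    (hdeg : (X.filter (fun y => D v y ∨ D y v)).card < n) : Col D (insert v X) n := by
  obtain ⟨c, h1, h2⟩ := h
  have hex : ∃ a < n, a ∉ (X.filter (fun y => D v y ∨ D y v)).image c := by
    by_contra hcon
    push Not at hcon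
    have hsub : Finset.range n ⊆ (X.filter (fun y => D v y ∨ D y v)).image c := by
      intro a ha
      exact hcon a (Finset.mem_range.1 ha)
    have := (Finset.card_le_card hsub).trans Finset.card_image_le
    rw [Finset.card_range] at this
    omega
  obtain ⟨a, han, ha⟩ := hex
  have ha' : ∀ y ∈ X, (D v y ∨ D y v) → c y ≠ a := by
    intro y hy hD hc
    exact ha (Finset.mem_image.2 ⟨y, Finset.mem_filter.2 ⟨hy, hD⟩, hc⟩)
  refine ⟨Function.update c v a, ?_, ?_⟩
  · intro x hx
    by_cases hxv : x = v
    · subst hxv; simpa using han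
    · rw [Function.update_of_ne hxv]
      rcases Finset.mem_insert.1 hx with h | h
      · exact absurd h hxv
      · exact h1 x h
  · intro x hx y hy hD
    by_cases hxv : x = v
    · by_cases hyv : y = v
      · subst hxv; subst hyv; exact absurd hD (hirr _)
      · have hyX : y ∈ X := (Finset.mem_insert.1 hy).resolve_left hyv
        rw [hxv, Function.update_self, Function.update_of_ne hyv]
        exact (ha' y hyX (Or.inl (hxv ▸ hD))).symm
    · have hxX : x ∈ X := (Finset.mem_insert.1 hx).resolve_left hxv
      by_cases hyv : y = v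
      · rw [hyv, Function.update_self, Function.update_of_ne hxv]
        exact ha' x hxX (Or.inr (hyv ▸ hD))
      · have hyX : y ∈ X := (Finset.mem_insert.1 hy).resolve_left hyv
        rw [Function.update_of_ne hxv, Function.update_of_ne hyv]
        exact h2 x hxX y hyX hD

/-- A vertex set inducing a digraph of maximum out-degree at most `t` is `(2t+1)`-colourable. -/
theorem col_of_out {D : V → V → Prop} [DecidableRel D] (hirr : ∀ x, ¬ D x x) (t : ℕ) :
    ∀ X : Finset V, (∀ x ∈ X, (X.filter (fun y => D x y)).card ≤ t) → Col D X (2 * t + 1) := by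
  intro X
  induction X using Finset.strongInduction with
  | H X ih =>
    intro hX
    by_cases hne : X.Nonempty
    · -- some vertex has total degree at most `2 t`
      have hsum : ∑ x ∈ X, (X.filter (fun y => D y x)).card = ∑ x ∈ X, (X.filter (fun y => D x y)).card := by
        simp only [Finset.card_filter]
        rw [Finset.sum_comm]
      obtain ⟨v, hvX, hv⟩ : ∃ v ∈ X, (X.filter (fun y => D y v)).card ≤ t := by
        by_contra hcon
        push Not at hcon
        have h1 : ∑ x ∈ X, (X.filter (fun y => D x y)).card ≤ ∑ x ∈ X, t := Finset.sum_le_sum hX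
        have h2 : ∑ x ∈ X, t < ∑ x ∈ X, (X.filter (fun y => D y x)).card :=
          Finset.sum_lt_sum_of_nonempty hne hcon
        omega
      have hcol := ih (X.erase v) (Finset.erase_ssubset hvX) (by
        intro x hx
        refine le_trans (Finset.card_le_card ?_) (hX x (Finset.mem_of_mem_erase hx))
        exact Finset.filter_subset_filter _ (Finset.erase_subset _ _))
      have := hcol.insert hirr (v := v) (Finset.notMem_erase v X) (by
        have hle : ((X.erase v).filter (fun y => D v y ∨ D y v)) ⊆
            (X.filter (fun y => D v y)) ∪ (X.filter (fun y => D y v)) := by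
          intro y hy
          rw [Finset.mem_filter] at hy
          rw [Finset.mem_union, Finset.mem_filter, Finset.mem_filter]
          have hyX := Finset.mem_of_mem_erase hy.1
          rcases hy.2 with h | h
          · exact Or.inl ⟨hyX, h⟩
          · exact Or.inr ⟨hyX, h⟩
        have h1 := (Finset.card_le_card hle).trans (Finset.card_union_le _ _)
        have h2 := hX v hvX
        omega)
      rwa [Finset.insert_erase hvX] at this
    · rw [Finset.not_nonempty_iff_eq_empty] at hne
      subst hne
      exact ⟨fun _ => 0, by simp, by simp⟩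

theorem col_of_in {D : V → V → Prop} [DecidableRel D] (hirr : ∀ x, ¬ D x x) (t : ℕ)
    (X : Finset V) (hX : ∀ x ∈ X, (X.filter (fun y => D y x)).card ≤ t) : Col D X (2 * t + 1) := by
  apply Col.reverse
  exact col_of_out (D := fun x y => D y x) hirr t X hX

/-- Existence of a critical subset. -/
theorem exists_critical {D : V → V → Prop} [DecidableRel D] (hirr : ∀ x, ¬ D x x) {X : Finset V}
    {N : ℕ} (h : ¬ Col D X N) :
    ∃ S ⊆ X, ¬ Col D S N ∧ ∀ x ∈ S, N ≤ (S.filter (fun y => D x y)).card +
      (S.filter (fun y => D y x)).card := by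
  classical
  obtain ⟨S, hS, hmin⟩ := (X.powerset.filter (fun S => ¬ Col D S N)).exists_minimal
    ⟨X, by simp [h]⟩
  rw [Finset.mem_filter, Finset.mem_powerset] at hS
  refine ⟨S, hS.1, hS.2, ?_⟩
  intro x hx
  by_contra hcon
  push Not at hcon
  apply hS.2
  have hcol : Col D (S.erase x) N := by
    by_contra hc
    have h1 : S.erase x ∈ X.powerset.filter (fun S => ¬ Col D S N) := by
      rw [Finset.mem_filter, Finset.mem_powerset]
      exact ⟨(Finset.erase_subset _ _).trans hS.1, hc⟩
    have h2 := hmin h1 (Finset.erase_subset _ _)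
    exact (Finset.notMem_erase x S) (h2 hx)
  have := hcol.insert hirr (v := x) (Finset.notMem_erase x S) (by
    have hle : ((S.erase x).filter (fun y => D x y ∨ D y x)) ⊆
        (S.filter (fun y => D x y)) ∪ (S.filter (fun y => D y x)) := by
      intro y hy
      rw [Finset.mem_filter] at hy
      rw [Finset.mem_union, Finset.mem_filter, Finset.mem_filter]
      have hyX := Finset.mem_of_mem_erase hy.1
      rcases hy.2 with h | h
      · exact Or.inl ⟨hyX, h⟩
      · exact Or.inr ⟨hyX, h⟩
    have h1 := (Finset.card_le_card hle).trans (Finset.card_union_le _ _)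
    omega)
  rwa [Finset.insert_erase hx] at this

omit [DecidableEq V] in
theorem card_gt_of_not_col {D : V → V → Prop} (hirr : ∀ x, ¬ D x x) {X : Finset V} {N : ℕ}
    (h : ¬ Col D X N) : N < X.card := by
  classical
  by_contra hcon
  push Not at hcon
  apply h
  obtain ⟨e⟩ := Fintype.card_eq.1 (show Fintype.card X = Fintype.card (Fin X.card) by simp)
  refine ⟨fun x => if hx : x ∈ X then (e ⟨x, hx⟩ : ℕ) else 0, ?_, ?_⟩
  · intro x hx
    simp only [hx, dif_pos]
    exact (e ⟨x, hx⟩).2.trans_le hcon
  · intro x hx y hy hD heq
    simp only [hx, hy, dif_pos] at heq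
    have := e.injective (Fin.ext heq)
    have hxy : x = y := congrArg Subtype.val this
    subst hxy
    exact hirr _ hD

/-- A partial injective choice: `f w ∈ N w` for `w ∈ s`, injective on `s`. -/
def Choice {ι : Type*} (N : ι → Finset V) (s : Finset ι) (f : ι → V) : Prop :=
  (∀ w ∈ s, f w ∈ N w) ∧ ∀ w ∈ s, ∀ w' ∈ s, f w = f w' → w = w'

/-- Extending a partial injective choice to a further set of indices, each of which has enough
options. Options that are disjoint from those of an index already treated do not conflict. -/
theorem Choice.extend {ι : Type*} [DecidableEq ι] {N : ι → Finset V} {s : Finset ι} {f : ι → V}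
    (hf : Choice N s f) (W : Finset ι) (hW : ∀ w ∈ W, w ∉ s)
    (hcard : ∀ w ∈ W, (s.filter (fun w' => ¬ Disjoint (N w') (N w))).card + W.card ≤ (N w).card) :
    ∃ g, Choice N (s ∪ W) g := by
  classical
  induction W using Finset.induction_on with
  | empty => exact ⟨f, by simpa using hf⟩
  | @insert a W ha ih =>
    obtain ⟨g, hg1, hg2⟩ := ih (fun w hw => hW w (Finset.mem_insert_of_mem hw)) (by
      intro w hw
      have := hcard w (Finset.mem_insert_of_mem hw)
      rw [Finset.card_insert_of_notMem ha] at this
      omega)
    have hsub : ∃ v ∈ N a, v ∉ ((s ∪ W).filter (fun w' => ¬ Disjoint (N w') (N a))).image g := by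
      by_contra hcon
      push Not at hcon
      have h1 := (Finset.card_le_card (fun v hv => hcon v hv : N a ⊆ _)).trans Finset.card_image_le
      have h2 := hcard a (Finset.mem_insert_self a W)
      rw [Finset.card_insert_of_notMem ha] at h2
      have h3 : ((s ∪ W).filter (fun w' => ¬ Disjoint (N w') (N a))).card ≤
          (s.filter (fun w' => ¬ Disjoint (N w') (N a))).card + W.card := by
        rw [Finset.filter_union]
        refine (Finset.card_union_le _ _).trans ?_
        have := Finset.card_filter_le W (fun w' => ¬ Disjoint (N w') (N a))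
        omega
      omega
    obtain ⟨v, hvN, hv⟩ := hsub
    have hnotin : a ∉ s ∪ W := by
      rw [Finset.mem_union]
      rintro (h | h)
      · exact hW a (Finset.mem_insert_self a W) h
      · exact ha h
    have hv' : ∀ w ∈ s ∪ W, g w ≠ v := by
      intro w hw hgw
      by_cases hdis : Disjoint (N w) (N a)
      · have h1 := hg1 w hw
        rw [hgw] at h1
        exact (Finset.disjoint_left.1 hdis h1) hvN
      · exact hv (Finset.mem_image.2 ⟨w, Finset.mem_filter.2 ⟨hw, hdis⟩, hgw⟩)
    refine ⟨Function.update g a v, ?_, ?_⟩
    · intro w hw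
      by_cases hwa : w = a
      · subst hwa; simpa using hvN
      · rw [Function.update_of_ne hwa]
        apply hg1
        rw [Finset.union_insert, Finset.mem_insert] at hw
        exact hw.resolve_left hwa
    · intro w hw w' hw' heq
      rw [Finset.union_insert, Finset.mem_insert] at hw hw'
      by_cases hwa : w = a
      · by_cases hwa' : w' = a
        · rw [hwa, hwa']
        · exfalso
          rw [hwa, Function.update_self, Function.update_of_ne hwa'] at heq
          exact hv' w' (hw'.resolve_left hwa') heq.symm
      · by_cases hwa' : w' = a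
        · exfalso
          rw [hwa', Function.update_self, Function.update_of_ne hwa] at heq
          exact hv' w (hw.resolve_left hwa) heq
        · rw [Function.update_of_ne hwa, Function.update_of_ne hwa'] at heq
          exact hg2 w (hw.resolve_left hwa) w' (hw'.resolve_left hwa') heq

/-- In an acyclic graph every nonempty finite set of vertices contains a vertex with at most one
neighbour in the set. -/
theorem exists_leaf {ι : Type*} [DecidableEq ι] {T : SimpleGraph ι} (hT : T.IsAcyclic)
    [DecidableRel T.Adj] {I : Finset ι} (hI : I.Nonempty) :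
    ∃ x ∈ I, (I.filter (fun y => T.Adj x y)).card ≤ 1 := by
  classical
  by_cases h1 : I.card ≤ 1
  · obtain ⟨x, hx⟩ := hI
    exact ⟨x, hx, (Finset.card_filter_le _ _).trans h1⟩
  · push Not at h1
    let H : SimpleGraph I := T.induce (I : Set ι)
    have hH : H.IsAcyclic := hT.induce _
    have : Nontrivial I := Finset.one_lt_card_iff_nontrivial.1 h1 |>.coe_sort
    obtain ⟨T', hle, -, hT'⟩ := SimpleGraph.Connected.exists_isTree_le_of_le_of_isAcyclic
      (SimpleGraph.connected_top (V := I)) (le_top : H ≤ ⊤) hH
    obtain ⟨x, hx⟩ := hT'.exists_vert_degree_one_of_nontrivial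
    refine ⟨x.1, x.2, ?_⟩
    have hcard : (I.filter (fun y => T.Adj x.1 y)).card ≤ T'.degree x := by
      have himg : I.filter (fun y => T.Adj x.1 y) ⊆ (T'.neighborFinset x).image Subtype.val := by
        intro y hy
        rw [Finset.mem_filter] at hy
        rw [Finset.mem_image]
        refine ⟨⟨y, hy.1⟩, ?_, rfl⟩
        rw [SimpleGraph.mem_neighborFinset]
        exact hle hy.2
      exact (Finset.card_le_card himg).trans Finset.card_image_le
    omega

/-- Burr's quadratic bound, for a part `I` of an acyclic graph: if `X` is not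
`(|I|-1)^2`-colourable then the oriented forest induced on `I` embeds into `D[X]`. -/
theorem burr_basic {ι : Type*} [DecidableEq ι] {D : V → V → Prop} [DecidableRel D]
    (hirr : ∀ x, ¬ D x x) {T : ι → ι → Prop} [DecidableRel T]
    (hT : (SimpleGraph.fromRel T).IsAcyclic) (hTas : ∀ a b, T a b → ¬ T b a) :
    ∀ (m : ℕ) (I : Finset ι) (X : Finset V), I.card = m → ¬ Col D X ((m - 1) ^ 2) →
      ∃ φ : ι → V, (∀ i ∈ I, φ i ∈ X) ∧ (∀ i ∈ I, ∀ j ∈ I, φ i = φ j → i = j) ∧
        ∀ i ∈ I, ∀ j ∈ I, T i j → D (φ i) (φ j) := by
  classical
  intro m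
  induction m with
  | zero =>
    intro I X hI hX
    have hI0 : I = ∅ := Finset.card_eq_zero.1 hI
    subst hI0
    have hpos : 0 < X.card := by
      have := card_gt_of_not_col hirr hX
      omega
    obtain ⟨v, hv⟩ := Finset.card_pos.1 hpos
    exact ⟨fun _ => v, by simp, by simp, by simp⟩
  | succ m ih =>
    intro I X hI hX
    have hIne : I.Nonempty := by
      rw [← Finset.card_pos]; omega
    obtain ⟨x, hxI, hx⟩ := exists_leaf hT hIne
    have hIe : (I.erase x).card = m := by
      rw [Finset.card_erase_of_mem hxI]; omega
    have hXcard : m < X.card := by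
      have h1 := card_gt_of_not_col hirr hX
      have h2 : m ≤ (m + 1 - 1) ^ 2 := by
        rw [Nat.add_sub_cancel]
        nlinarith [Nat.zero_le m, sq_nonneg m]
      omega
    have hirrT : ∀ a, ¬ T a a := fun a h => hTas a a h h
    by_cases hx0 : (I.filter (fun y => (SimpleGraph.fromRel T).Adj x y)) = ∅
    · -- `x` has no neighbour in `I`
      have hX' : ¬ Col D X ((m - 1) ^ 2) := by
        intro hc
        apply hX
        exact hc.mono (Finset.Subset.refl _) (Nat.pow_le_pow_left (by omega) 2)
      obtain ⟨φ, h1, h2, h3⟩ := ih (I.erase x) X hIe hX'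
      obtain ⟨v, hvX, hv⟩ : ∃ v ∈ X, v ∉ (I.erase x).image φ := by
        by_contra hcon
        push Not at hcon
        have := (Finset.card_le_card (fun v hv => hcon v hv : X ⊆ _)).trans Finset.card_image_le
        omega
      have hnb : ∀ j ∈ I, ¬ T x j ∧ ¬ T j x := by
        intro j hj
        have : j ∉ (I.filter (fun y => (SimpleGraph.fromRel T).Adj x y)) := by
          rw [hx0]; simp
        rw [Finset.mem_filter, SimpleGraph.fromRel_adj] at this
        push Not at this
        have h := this hj
        refine ⟨fun hT1 => (h (fun hxj => hirrT x (hxj ▸ hT1))).1 hT1,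
          fun hT1 => (h (fun hxj => hirrT x (hxj ▸ hT1))).2 hT1⟩
      refine ⟨Function.update φ x v, ?_, ?_, ?_⟩
      · intro i hi
        by_cases hix : i = x
        · subst hix; simpa using hvX
        · rw [Function.update_of_ne hix]
          exact h1 i (Finset.mem_erase.2 ⟨hix, hi⟩)
      · intro i hi j hj heq
        by_cases hix : i = x
        · by_cases hjx : j = x
          · rw [hix, hjx]
          · exfalso
            rw [hix, Function.update_self, Function.update_of_ne hjx] at heq
            exact hv (Finset.mem_image.2 ⟨j, Finset.mem_erase.2 ⟨hjx, hj⟩, heq.symm⟩)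
        · by_cases hjx : j = x
          · exfalso
            rw [hjx, Function.update_self, Function.update_of_ne hix] at heq
            exact hv (Finset.mem_image.2 ⟨i, Finset.mem_erase.2 ⟨hix, hi⟩, heq⟩)
          · rw [Function.update_of_ne hix, Function.update_of_ne hjx] at heq
            exact h2 i (Finset.mem_erase.2 ⟨hix, hi⟩) j (Finset.mem_erase.2 ⟨hjx, hj⟩) heq
      · intro i hi j hj hij
        by_cases hix : i = x
        · exact absurd (hix ▸ hij) (hnb j hj).1
        · by_cases hjx : j = x
          · exact absurd (hjx ▸ hij) (hnb i hi).2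
          · rw [Function.update_of_ne hix, Function.update_of_ne hjx]
            exact h3 i (Finset.mem_erase.2 ⟨hix, hi⟩) j (Finset.mem_erase.2 ⟨hjx, hj⟩) hij
    · -- `x` has exactly one neighbour `p` in `I`
      have hcard1 : (I.filter (fun y => (SimpleGraph.fromRel T).Adj x y)).card = 1 := by
        have : 0 < (I.filter (fun y => (SimpleGraph.fromRel T).Adj x y)).card :=
          Finset.card_pos.2 (Finset.nonempty_iff_ne_empty.2 hx0)
        omega
      obtain ⟨p, hp⟩ := Finset.card_eq_one.1 hcard1
      have hpmem : p ∈ I ∧ (SimpleGraph.fromRel T).Adj x p := by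
        have : p ∈ (I.filter (fun y => (SimpleGraph.fromRel T).Adj x y)) := by rw [hp]; simp
        simpa using Finset.mem_filter.1 this
      have hpx : p ≠ x := hpmem.2.ne'
      have hnb : ∀ j ∈ I, (T x j ∨ T j x) → j = p := by
        intro j hj hTj
        have : j ∈ (I.filter (fun y => (SimpleGraph.fromRel T).Adj x y)) := by
          rw [Finset.mem_filter, SimpleGraph.fromRel_adj]
          refine ⟨hj, ?_, hTj⟩
          rintro rfl
          rcases hTj with h | h <;> exact hirrT _ h
        rw [hp] at this
        simpa using this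
      have hm1 : 1 ≤ m := by
        have : 0 < (I.erase x).card := Finset.card_pos.2 ⟨p, Finset.mem_erase.2 ⟨hpx, hpmem.1⟩⟩
        omega
      have hTxp : T x p ∨ T p x := ((SimpleGraph.fromRel_adj T x p).1 hpmem.2).2
      -- reduce to finding a free neighbour for the image of `p`
      have main : ∀ (R : V → V → Prop) [DecidableRel R], (∀ y, ¬ R y y) →
          (∀ Y : Finset V, ∀ t : ℕ, (∀ y ∈ Y, (Y.filter (fun z => R y z)).card ≤ t) →
            Col D Y (2 * t + 1)) →
          ∃ φ : ι → V, (∀ i ∈ I.erase x, φ i ∈ X) ∧
            (∀ i ∈ I.erase x, ∀ j ∈ I.erase x, φ i = φ j → i = j) ∧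
            (∀ i ∈ I.erase x, ∀ j ∈ I.erase x, T i j → D (φ i) (φ j)) ∧
            ∃ v ∈ X, v ∉ (I.erase x).image φ ∧ R (φ p) v := by
        intro R _ hR hcolR
        set Y := X.filter (fun y => m ≤ (X.filter (fun z => R y z)).card) with hY
        have hYX : Y ⊆ X := Finset.filter_subset _ _
        have hY' : ¬ Col D Y ((m - 1) ^ 2) := by
          intro hc
          apply hX
          have hc2 : Col D (X.filter (fun y => ¬ m ≤ (X.filter (fun z => R y z)).card))
              (2 * (m - 1) + 1) := by
            apply hcolR
            intro y hy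
            rw [Finset.mem_filter] at hy
            have h1 := Finset.card_le_card (Finset.filter_subset_filter (fun z => R y z)
              (Finset.filter_subset (fun y => ¬ m ≤ (X.filter (fun z => R y z)).card) X))
            omega
          have h3 := hc.union hc2
          rw [hY, Finset.filter_union_filter_not_eq] at h3
          refine h3.mono (Finset.Subset.refl _) ?_
          rw [Nat.add_sub_cancel]
          obtain ⟨q, rfl⟩ : ∃ q, m = q + 1 := ⟨m - 1, by omega⟩
          rw [Nat.add_sub_cancel]
          nlinarith
        obtain ⟨φ, h1, h2, h3⟩ := ih (I.erase x) Y hIe hY'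
        have hpe : p ∈ I.erase x := Finset.mem_erase.2 ⟨hpx, hpmem.1⟩
        have hφp := h1 p hpe
        rw [hY, Finset.mem_filter] at hφp
        refine ⟨φ, fun i hi => hYX (h1 i hi), h2, h3, ?_⟩
        by_contra hcon
        push Not at hcon
        have hsub : X.filter (fun z => R (φ p) z) ⊆ ((I.erase x).erase p).image φ := by
          intro v hv
          rw [Finset.mem_filter] at hv
          have hmem : v ∈ (I.erase x).image φ := by
            by_contra hn
            exact hcon v hv.1 hn hv.2
          obtain ⟨i, hi, rfl⟩ := Finset.mem_image.1 hmem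
          refine Finset.mem_image.2 ⟨i, Finset.mem_erase.2 ⟨?_, hi⟩, rfl⟩
          rintro rfl
          exact hR _ hv.2
        have hc := (Finset.card_le_card hsub).trans Finset.card_image_le
        rw [Finset.card_erase_of_mem hpe, hIe] at hc
        omega
      have hext : ∃ φ : ι → V, (∀ i ∈ I.erase x, φ i ∈ X) ∧
            (∀ i ∈ I.erase x, ∀ j ∈ I.erase x, φ i = φ j → i = j) ∧
            (∀ i ∈ I.erase x, ∀ j ∈ I.erase x, T i j → D (φ i) (φ j)) ∧
            ∃ v ∈ X, v ∉ (I.erase x).image φ ∧ (T x p → D v (φ p)) ∧ (T p x → D (φ p) v) := by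
        rcases hTxp with h | h
        · obtain ⟨φ, h1, h2, h3, v, hv1, hv2, hv3⟩ := main (fun y z => D z y) hirr
            (fun Y t hY => col_of_in hirr t Y hY)
          exact ⟨φ, h1, h2, h3, v, hv1, hv2, fun _ => hv3, fun h' => absurd h' (hTas _ _ h)⟩
        · obtain ⟨φ, h1, h2, h3, v, hv1, hv2, hv3⟩ := main D hirr
            (fun Y t hY => col_of_out hirr t Y hY)
          exact ⟨φ, h1, h2, h3, v, hv1, hv2, fun h' => absurd h' (hTas _ _ h), fun _ => hv3⟩
      obtain ⟨φ, h1, h2, h3, v, hvX, hv, hv1, hv2⟩ := hext
      refine ⟨Function.update φ x v, ?_, ?_, ?_⟩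
      · intro i hi
        by_cases hix : i = x
        · subst hix; simpa using hvX
        · rw [Function.update_of_ne hix]
          exact h1 i (Finset.mem_erase.2 ⟨hix, hi⟩)
      · intro i hi j hj heq
        by_cases hix : i = x
        · by_cases hjx : j = x
          · rw [hix, hjx]
          · exfalso
            rw [hix, Function.update_self, Function.update_of_ne hjx] at heq
            exact hv (Finset.mem_image.2 ⟨j, Finset.mem_erase.2 ⟨hjx, hj⟩, heq.symm⟩)
        · by_cases hjx : j = x
          · exfalso
            rw [hjx, Function.update_self, Function.update_of_ne hix] at heq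
            exact hv (Finset.mem_image.2 ⟨i, Finset.mem_erase.2 ⟨hix, hi⟩, heq⟩)
          · rw [Function.update_of_ne hix, Function.update_of_ne hjx] at heq
            exact h2 i (Finset.mem_erase.2 ⟨hix, hi⟩) j (Finset.mem_erase.2 ⟨hjx, hj⟩) heq
      · intro i hi j hj hij
        by_cases hix : i = x
        · have hjp : j = p := hnb j hj (Or.inl (hix ▸ hij))
          have hjx : j ≠ x := by rw [hjp]; exact hpx
          rw [hix, Function.update_self, Function.update_of_ne hjx, hjp]
          exact hv1 (by rw [← hix, ← hjp]; exact hij)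
        · by_cases hjx : j = x
          · have hip : i = p := hnb i hi (Or.inr (hjx ▸ hij))
            rw [hjx, Function.update_self, Function.update_of_ne hix, hip]
            exact hv2 (by rw [← hip, ← hjx]; exact hij)
          · rw [Function.update_of_ne hix, Function.update_of_ne hjx]
            exact h3 i (Finset.mem_erase.2 ⟨hix, hi⟩) j (Finset.mem_erase.2 ⟨hjx, hj⟩) hij

/-- chromatic number and `Col` -/
theorem not_col_of_le_chromaticNumber {n : ℕ} {D : Fin n → Fin n → Prop} {N : ℕ}
    (h : ((N + 1 : ℕ) : ℕ∞) ≤ (SimpleGraph.fromRel D).chromaticNumber) :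
    ¬ Col D Finset.univ N := by
  rintro ⟨c, h1, h2⟩
  have hcol : (SimpleGraph.fromRel D).Colorable N := by
    refine ⟨SimpleGraph.Coloring.mk (fun x => (⟨c x, h1 x (Finset.mem_univ x)⟩ : Fin N)) ?_⟩
    intro x y hxy heq
    rw [SimpleGraph.fromRel_adj] at hxy
    have hc : c x = c y := congrArg Fin.val heq
    rcases hxy.2 with h | h
    · exact h2 x (Finset.mem_univ x) y (Finset.mem_univ y) h hc
    · exact h2 y (Finset.mem_univ y) x (Finset.mem_univ x) h hc.symm
  have h3 := h.trans hcol.chromaticNumber_le
  have h4 : N + 1 ≤ N := by exact_mod_cast h3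
  omega

end Pool.Agent.Work.MP_6241b7_co
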