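import Pool.Agent.Work.MP_6241b7_co.Base

/-!
# Embedding a tree from an embedding of its non-leaf part
-/

set_option autoImplicit false

open Finset

namespace Pool.Agent.Work.MP_6241b7_co

/-- Gluing: an embedding of the part induced on `I` together with an injective choice of images of
the remaining vertices, each of which has a single neighbour, lying in `I`. -/
theorem glue {ι V : Type*} {D : V → V → Prop} {T : ι → ι → Prop} (I : Finset ι) (φ g : ι → V)
    (p : ι → ι)
    (hφ : ∀ i ∈ I, ∀ j ∈ I, φ i = φ j → i = j) (hφT : ∀ i ∈ I, ∀ j ∈ I, T i j → D (φ i) (φ j))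
    (hg : ∀ w, w ∉ I → ∀ w', w' ∉ I → g w = g w' → w = w')
    (hgφ : ∀ w, w ∉ I → ∀ i ∈ I, g w ≠ φ i)
    (hp : ∀ w, w ∉ I → p w ∈ I) (hpT : ∀ w, w ∉ I → ∀ z, (T w z ∨ T z w) → z = p w)
    (hout : ∀ w, w ∉ I → T (p w) w → D (φ (p w)) (g w))
    (hin : ∀ w, w ∉ I → T w (p w) → D (g w) (φ (p w))) :
    ∃ f : ι → V, Function.Injective f ∧ ∀ a b, T a b → D (f a) (f b) := by
  classical
  refine ⟨fun w => if w ∈ I then φ w else g w, ?_, ?_⟩
  · intro w w' h
    by_cases hw : w ∈ I
    · by_cases hw' : w' ∈ I
      · simp only [hw, hw', if_true] at h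
        exact hφ w hw w' hw' h
      · simp only [hw, hw', if_true, if_false] at h
        exact absurd h.symm (hgφ w' hw' w hw)
    · by_cases hw' : w' ∈ I
      · simp only [hw, hw', if_true, if_false] at h
        exact absurd h (hgφ w hw w' hw')
      · simp only [hw, hw', if_false] at h
        exact hg w hw w' hw' h
  · intro a b hab
    by_cases ha : a ∈ I
    · by_cases hb : b ∈ I
      · simp only [ha, hb, if_true]
        exact hφT a ha b hb hab
      · simp only [ha, hb, if_true, if_false]
        have hap : a = p b := hpT b hb a (Or.inr hab)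
        rw [hap]
        apply hout b hb
        rw [← hap]; exact hab
    · by_cases hb : b ∈ I
      · simp only [ha, hb, if_true, if_false]
        have hbp : b = p a := hpT a ha b (Or.inl hab)
        rw [hbp]
        apply hin a ha
        rw [← hbp]; exact hab
      · exfalso
        have hbp : b = p a := hpT a ha b (Or.inl hab)
        exact hb (hbp ▸ hp a ha)

/-- The set of non-leaf vertices of the oriented tree `T`. -/
noncomputable def core {k : ℕ} (T : Fin (k + 1) → Fin (k + 1) → Prop) : Finset (Fin (k + 1)) := by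
  classical
  exact Finset.univ.filter (fun v => 1 < ((SimpleGraph.fromRel T).neighborSet v).ncard)

theorem mem_core {k : ℕ} {T : Fin (k + 1) → Fin (k + 1) → Prop} {v : Fin (k + 1)} :
    v ∈ core T ↔ 1 < ((SimpleGraph.fromRel T).neighborSet v).ncard := by
  simp [core]

theorem card_core {k : ℕ} (T : Fin (k + 1) → Fin (k + 1) → Prop) :
    (core T).card = {v | 1 < ((SimpleGraph.fromRel T).neighborSet v).ncard}.ncard := by
  rw [← Set.ncard_coe_finset]
  congr 1
  ext v
  simp [mem_core]

theorem core_rev {k : ℕ} (T : Fin (k + 1) → Fin (k + 1) → Prop) :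
    core (fun a b => T b a) = core T := by
  have h : SimpleGraph.fromRel (fun a b => T b a) = SimpleGraph.fromRel T := by
    ext a b
    rw [SimpleGraph.fromRel_adj, SimpleGraph.fromRel_adj]
    tauto
  ext v
  rw [mem_core, mem_core, h]

/-- closed sets in connected graphs -/
theorem closed_of_connected {ι : Type*} {G : SimpleGraph ι} (hG : G.Connected) (P : ι → Prop)
    (hP : ∀ a b, P a → G.Adj a b → P b) {a : ι} (ha : P a) (b : ι) : P b := by
  obtain ⟨w⟩ := hG.preconnected a b
  induction w with
  | nil => exact ha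
  | cons h _ ih => exact ih (hP _ _ ha h)

/-- For `k ≥ 2` every leaf of a tree with `k` edges has a unique neighbour and it is not a leaf. -/
theorem exists_parent {k : ℕ} {T : Fin (k + 1) → Fin (k + 1) → Prop} (hTas : ∀ a b, T a b → ¬ T b a)
    (hT : (SimpleGraph.fromRel T).IsTree) (hk : 2 ≤ k) (w : Fin (k + 1)) (hw : w ∉ core T) :
    ∃ p ∈ core T, (SimpleGraph.fromRel T).Adj w p ∧ ∀ z, (T w z ∨ T z w) → z = p := by
  classical
  have hirr : ∀ a, ¬ T a a := fun a h => hTas a a h h
  set G := SimpleGraph.fromRel T with hG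
  have hdeg : (G.neighborSet w).ncard ≤ 1 := by
    rw [mem_core, ← hG] at hw; omega
  have : Nontrivial (Fin (k + 1)) := Fin.nontrivial_iff_two_le.2 (by omega)
  obtain ⟨p, hp⟩ : ∃ p, G.Adj w p := by
    obtain ⟨z, hz⟩ := exists_ne w
    obtain ⟨q⟩ := hT.connected.preconnected w z
    cases q with
    | nil => exact absurd rfl hz
    | cons h _ => exact ⟨_, h⟩
  have huniq : ∀ z, G.Adj w z → z = p := by
    intro z hz
    exact (Set.ncard_le_one (Set.toFinite _)).1 hdeg z hz p hp
  refine ⟨p, ?_, hp, ?_⟩
  · by_contra hpc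
    have hdegp : (G.neighborSet p).ncard ≤ 1 := by
      rw [mem_core, ← hG] at hpc; omega
    have huniq' : ∀ z, G.Adj p z → z = w := by
      intro z hz
      exact (Set.ncard_le_one (Set.toFinite _)).1 hdegp z hz w hp.symm
    have hall := closed_of_connected hT.connected (fun z => z = w ∨ z = p) (by
      rintro a b (rfl | rfl) hab
      · exact Or.inr (huniq b hab)
      · exact Or.inl (huniq' b hab)) (Or.inl rfl : w = w ∨ w = p)
    have hsub : (Finset.univ : Finset (Fin (k + 1))) ⊆ {w, p} := by
      intro z _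
      rcases hall z with h | h <;> simp [h]
    have := (Finset.card_le_card hsub).trans Finset.card_le_two
    simp at this
    omega
  · intro z hz
    apply huniq
    rw [hG, SimpleGraph.fromRel_adj]
    refine ⟨?_, hz⟩
    rintro rfl
    rcases hz with h | h <;> exact hirr _ h

/-- The main embedding step: if many vertices have large out-degree and in-degree at least
`B + m - 1`, where `B` is the number of in-leaves, then the tree embeds. -/
theorem embed_heavy {k n : ℕ} {D : Fin n → Fin n → Prop} (hD : ∀ x y, D x y → ¬ D y x)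
    [DecidableRel D]
    {T : Fin (k + 1) → Fin (k + 1) → Prop} [DecidableRel T] (hTas : ∀ a b, T a b → ¬ T b a)
    (hT : (SimpleGraph.fromRel T).IsTree) (hk : 2 ≤ k) (S : Finset (Fin n))
    (hcol : ¬ Col D (S.filter (fun x => k ≤ (S.filter (fun y => D x y)).card ∧
      ((core T)ᶜ.filter (fun w => ∃ p, T w p)).card + ((core T).card - 1) ≤
        (S.filter (fun y => D y x)).card)) (((core T).card - 1) ^ 2)) :
    ∃ f : Fin (k + 1) → Fin n, Function.Injective f ∧ ∀ a b, T a b → D (f a) (f b) := by
  classical
  have hirr : ∀ a, ¬ D a a := fun a h => hD a a h h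
  obtain ⟨φ, hφY, hφinj, hφT⟩ := burr_basic hirr hT.isAcyclic hTas _ (core T) _ rfl hcol
  choose! p hpcore hpadj hpuniq using exists_parent hTas hT hk
  set I := core T with hI
  set Lin := Iᶜ.filter (fun w => ∃ p, T w p) with hLin
  set Lout := Iᶜ.filter (fun w => ¬ ∃ p, T w p) with hLout
  let N : Fin (k + 1) → Finset (Fin n) := fun w =>
    if ∃ p, T w p then (S.filter (fun y => D y (φ (p w)))) \ I.image φ
    else (S.filter (fun y => D (φ (p w)) y)) \ I.image φ
  have hIne : ∀ w, w ∉ I → (I.image φ).card ≤ I.card := fun _ _ => Finset.card_image_le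
  -- sizes
  have hNin : ∀ w ∈ Lin, Lin.card ≤ (N w).card := by
    intro w hw
    have hwI : w ∉ I := by simpa using (Finset.mem_filter.1 hw).1
    have hex : ∃ p, T w p := (Finset.mem_filter.1 hw).2
    have h1 := (Finset.mem_filter.1 (hφY (p w) (hpcore w hwI))).2.2
    simp only [N, if_pos hex]
    have h2 : ((S.filter (fun y => D y (φ (p w)))) ∩ I.image φ).card ≤ I.card - 1 := by
      have hsub : (S.filter (fun y => D y (φ (p w)))) ∩ I.image φ ⊆ (I.erase (p w)).image φ := by
        intro v hv
        rw [Finset.mem_inter, Finset.mem_filter] at hv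
        obtain ⟨i, hi, rfl⟩ := Finset.mem_image.1 hv.2
        refine Finset.mem_image.2 ⟨i, Finset.mem_erase.2 ⟨?_, hi⟩, rfl⟩
        rintro rfl
        exact hirr _ hv.1.2
      have := (Finset.card_le_card hsub).trans Finset.card_image_le
      rwa [Finset.card_erase_of_mem (hpcore w hwI)] at this
    have h3 := Finset.card_sdiff_add_card_inter (S.filter (fun y => D y (φ (p w)))) (I.image φ)
    omega
  have hcards : Lin.card + Lout.card + I.card = k + 1 := by
    rw [hLin, hLout, Finset.card_filter_add_card_filter_not, Finset.card_compl, Fintype.card_fin]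
    have := Finset.card_le_univ I
    rw [Fintype.card_fin] at this
    omega
  have hNout : ∀ w ∈ Lout, Lin.card + Lout.card ≤ (N w).card := by
    intro w hw
    have hwI : w ∉ I := by simpa using (Finset.mem_filter.1 hw).1
    have hex : ¬ ∃ p, T w p := (Finset.mem_filter.1 hw).2
    have h1 := (Finset.mem_filter.1 (hφY (p w) (hpcore w hwI))).2.1
    simp only [N, if_neg hex]
    have h2 : ((S.filter (fun y => D (φ (p w)) y)) ∩ I.image φ).card ≤ I.card - 1 := by
      have hsub : (S.filter (fun y => D (φ (p w)) y)) ∩ I.image φ ⊆ (I.erase (p w)).image φ := by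
        intro v hv
        rw [Finset.mem_inter, Finset.mem_filter] at hv
        obtain ⟨i, hi, rfl⟩ := Finset.mem_image.1 hv.2
        refine Finset.mem_image.2 ⟨i, Finset.mem_erase.2 ⟨?_, hi⟩, rfl⟩
        rintro rfl
        exact hirr _ hv.1.2
      have := (Finset.card_le_card hsub).trans Finset.card_image_le
      rwa [Finset.card_erase_of_mem (hpcore w hwI)] at this
    have h3 := Finset.card_sdiff_add_card_inter (S.filter (fun y => D (φ (p w)) y)) (I.image φ)
    have h4 : 0 < I.card := Finset.card_pos.2 ⟨_, hpcore w hwI⟩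
    omega
  -- choose the images of the leaves
  have hz : 0 < n := by
    have hne := (card_gt_of_not_col hirr hcol).trans_le (Finset.card_le_univ _)
    rw [Fintype.card_fin] at hne
    omega
  have hc0 : Choice N (∅ : Finset (Fin (k + 1))) (fun _ => (⟨0, hz⟩ : Fin n)) :=
    ⟨by simp, by simp⟩
  obtain ⟨g1, hg1⟩ := hc0.extend Lin (by simp) (by
    intro w hw
    simpa using hNin w hw)
  rw [Finset.empty_union] at hg1
  obtain ⟨g, hg⟩ := hg1.extend Lout (by
    intro w hw hw'
    exact (Finset.mem_filter.1 hw).2 (Finset.mem_filter.1 hw').2) (by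
    intro w hw
    have h1 := Finset.card_filter_le Lin (fun w' => ¬ Disjoint (N w') (N w))
    have h2 := hNout w hw
    omega)
  have hmemL : ∀ w, w ∉ I → w ∈ Lin ∪ Lout := by
    intro w hw
    rw [Finset.mem_union, hLin, hLout, Finset.mem_filter, Finset.mem_filter, Finset.mem_compl]
    by_cases h : ∃ p, T w p
    · exact Or.inl ⟨hw, h⟩
    · exact Or.inr ⟨hw, h⟩
  refine glue (D := D) (T := T) I φ g p hφinj hφT ?_ ?_ hpcore hpuniq ?_ ?_
  · intro w hw w' hw' h
    exact hg.2 w (hmemL w hw) w' (hmemL w' hw') h
  · intro w hw i hi h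
    have h1 := hg.1 w (hmemL w hw)
    have h2 : g w ∉ I.image φ := by
      by_cases hex : ∃ p, T w p
      · simp only [N, if_pos hex, Finset.mem_sdiff] at h1
        exact h1.2
      · simp only [N, if_neg hex, Finset.mem_sdiff] at h1
        exact h1.2
    exact h2 (Finset.mem_image.2 ⟨i, hi, h.symm⟩)
  · intro w hw hTw
    have hex : ¬ ∃ p, T w p := by
      rintro ⟨q, hq⟩
      have : q = p w := hpuniq w hw q (Or.inl hq)
      subst this
      exact hTas _ _ hq hTw
    have h1 := hg.1 w (hmemL w hw)
    simp only [N, if_neg hex, Finset.mem_sdiff, Finset.mem_filter] at h1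
    exact h1.1.2
  · intro w hw hTw
    have hex : ∃ p, T w p := ⟨_, hTw⟩
    have h1 := hg.1 w (hmemL w hw)
    simp only [N, if_pos hex, Finset.mem_sdiff, Finset.mem_filter] at h1
    exact h1.1.2

end Pool.Agent.Work.MP_6241b7_co
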