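import Pool.Agent.Work.MP_6241b7_co.Core

/-!
# Burr's conjecture up to an additive error depending only on the number of non-leaf vertices

If `T` is an oriented tree with `k` edges and at most `m` non-leaf vertices then every oriented
graph `D` with chromatic number at least `2 k + 2 m (m - 1)` contains `T`.

Proof idea. Pass to a critical induced subdigraph, so that every vertex has out-degree at least `k`
or in-degree at least `k`. Consider the vertices of out-degree at least `k`. Those of in-degree less
than `B + m - 1`, where `B` is the number of leaves attached by an arc towards the tree, cost at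
most `2 (B + m - 1) - 1` colours. If the remaining ones need more than `(m-1)^2` colours then the
tree of non-leaf vertices embeds among them (Burr's quadratic bound), and all leaves can be attached
greedily, first the `B` in-leaves and then the out-leaves. The vertices of out-degree less than `k`
are treated in the same way after reversing all arcs.
-/

set_option autoImplicit false

open Finset Pool.Agent.Work.MP_6241b7_co

namespace Pool.Agent.Work.MP_6241b7_co.FewNonLeaves

theorem col_low_in {V : Type*} [DecidableEq V] {D : V → V → Prop} [DecidableRel D]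
    (hirr : ∀ x, ¬ D x x) (S : Finset V) (Q : V → Prop) [DecidablePred Q] (q : ℕ) :
    Col D (S.filter (fun x => Q x ∧ (S.filter (fun y => D y x)).card < q)) (2 * q - 1) := by
  rcases Nat.eq_zero_or_pos q with rfl | hq
  · refine ⟨fun _ => 0, ?_, ?_⟩
    · intro x hx
      exact absurd (Finset.mem_filter.1 hx).2.2 (by omega)
    · intro x hx
      exact absurd (Finset.mem_filter.1 hx).2.2 (by omega)
  · have h := col_of_in hirr (q - 1)
      (S.filter (fun x => Q x ∧ (S.filter (fun y => D y x)).card < q)) (by
        intro x hx
        have h1 := (Finset.mem_filter.1 hx).2.2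
        have h2 := Finset.card_le_card (Finset.filter_subset_filter (fun y => D y x)
          (Finset.filter_subset (fun x => Q x ∧ (S.filter (fun y => D y x)).card < q) S))
        omega)
    exact h.mono (Finset.Subset.refl _) (by omega)

theorem main {k n : ℕ} (hk : 2 ≤ k) {D : Fin n → Fin n → Prop} (hD : ∀ x y, D x y → ¬ D y x)
    {T : Fin (k + 1) → Fin (k + 1) → Prop} (hTas : ∀ a b, T a b → ¬ T b a)
    (hT : (SimpleGraph.fromRel T).IsTree)
    (hcol : ¬ Col D Finset.univ (2 * k + 2 * ((core T).card * ((core T).card - 1)) - 1)) :
    ∃ f : Fin (k + 1) → Fin n, Function.Injective f ∧ ∀ a b, T a b → D (f a) (f b) := by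
  classical
  have hirr : ∀ a, ¬ D a a := fun a h => hD a a h h
  by_contra hno
  obtain ⟨S, -, hS, hSdeg⟩ := exists_critical hirr hcol
  set B := ((core T)ᶜ.filter (fun w => ∃ p, T w p)).card with hB
  set A := ((core T)ᶜ.filter (fun w => ∃ p, T p w)).card with hA
  -- the numbers of leaves
  have hm : 0 < (core T).card := by
    by_contra h0
    have h0' : core T = ∅ := by
      rw [← Finset.card_eq_zero]; omega
    obtain ⟨p, hp, -⟩ := exists_parent hTas hT hk 0 (by rw [h0']; simp)
    rw [h0'] at hp
    simp at hp
  have hAB : A + B + (core T).card = k + 1 := by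
    have h1 : (core T)ᶜ.filter (fun w => ∃ p, T p w) = (core T)ᶜ.filter (fun w => ¬ ∃ p, T w p) := by
      apply Finset.filter_congr
      intro w hw
      obtain ⟨p, -, hadj, huniq⟩ := exists_parent hTas hT hk w (by simpa using hw)
      rw [SimpleGraph.fromRel_adj] at hadj
      constructor
      · rintro ⟨q, hq⟩ ⟨q', hq'⟩
        have e1 := huniq q (Or.inr hq)
        have e2 := huniq q' (Or.inl hq')
        rw [e1] at hq; rw [e2] at hq'
        exact hTas _ _ hq hq'
      · intro h
        refine ⟨p, ?_⟩
        rcases hadj.2 with h' | h'
        · exact absurd ⟨p, h'⟩ h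
        · exact h'
    have h2 := Finset.card_filter_add_card_filter_not (s := (core T)ᶜ) (fun w => ∃ p, T w p)
    rw [Finset.card_compl, Fintype.card_fin] at h2
    have h3 := Finset.card_le_univ (core T)
    rw [Fintype.card_fin] at h3
    rw [hA, h1, hB]
    omega
  -- the two rich parts are cheap
  have hc1 : Col D (S.filter (fun x => k ≤ (S.filter (fun y => D x y)).card ∧
      B + ((core T).card - 1) ≤ (S.filter (fun y => D y x)).card)) (((core T).card - 1) ^ 2) := by
    by_contra hc
    exact hno (embed_heavy hD hTas hT hk S hc)
  have hc2 : Col D (S.filter (fun x => k ≤ (S.filter (fun y => D y x)).card ∧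
      A + ((core T).card - 1) ≤ (S.filter (fun y => D x y)).card)) (((core T).card - 1) ^ 2) := by
    by_contra hc
    apply hno
    have hT' : (SimpleGraph.fromRel (fun a b => T b a)).IsTree := by
      have h : SimpleGraph.fromRel (fun a b => T b a) = SimpleGraph.fromRel T := by
        ext a b
        rw [SimpleGraph.fromRel_adj, SimpleGraph.fromRel_adj]
        tauto
      rw [h]; exact hT
    have := embed_heavy (D := fun x y => D y x) (T := fun a b => T b a)
      (fun x y h => hD y x h) (fun a b h => hTas b a h) hT' hk S (by
        rw [core_rev]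
        intro hc'
        apply hc
        exact hc'.reverse)
    obtain ⟨f, hf1, hf2⟩ := this
    exact ⟨f, hf1, fun a b hab => hf2 b a hab⟩
  -- the poor parts
  have hc3 := col_low_in hirr S (fun x => k ≤ (S.filter (fun y => D x y)).card)
    (B + ((core T).card - 1))
  have hc4 : Col D (S.filter (fun x => k ≤ (S.filter (fun y => D y x)).card ∧
      (S.filter (fun y => D x y)).card < A + ((core T).card - 1)))
      (2 * (A + ((core T).card - 1)) - 1) := by
    apply Col.reverse
    exact col_low_in (D := fun x y => D y x) hirr S (fun x => k ≤ (S.filter (fun y => D y x)).card)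
      (A + ((core T).card - 1))
  apply hS
  refine (((hc1.union hc3).union (hc2.union hc4))).mono ?_ ?_
  · intro x hx
    have hdeg := hSdeg x hx
    simp only [Finset.mem_union, Finset.mem_filter]
    have hN : 2 * k - 1 ≤ 2 * k + 2 * ((core T).card * ((core T).card - 1)) - 1 := by omega
    by_cases h1 : k ≤ (S.filter (fun y => D x y)).card
    · left
      by_cases h2 : B + ((core T).card - 1) ≤ (S.filter (fun y => D y x)).card
      · exact Or.inl ⟨hx, h1, h2⟩
      · exact Or.inr ⟨hx, h1, by omega⟩
    · right
      have h3 : k ≤ (S.filter (fun y => D y x)).card := by omega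
      by_cases h2 : A + ((core T).card - 1) ≤ (S.filter (fun y => D x y)).card
      · exact Or.inl ⟨hx, h3, h2⟩
      · exact Or.inr ⟨hx, h3, by omega⟩
  · obtain ⟨t, ht⟩ : ∃ t, (core T).card = t + 1 := ⟨(core T).card - 1, by omega⟩
    rw [ht] at hAB ⊢
    simp only [Nat.add_sub_cancel]
    have e : (t + 1) * t = t ^ 2 + t := by ring
    rw [e]
    omega

/-- **Burr's conjecture up to an additive error depending only on the number of non-leaf vertices.**
Every oriented graph with chromatic number at least `2 k + 2 m (m - 1)` contains every oriented tree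
with `k` edges and at most `m` non-leaf vertices. -/
theorem result :
    ∀ (k m n : ℕ) (D : Fin n → Fin n → Prop),
      1 ≤ k →
      (∀ x y, D x y → ¬ D y x) →
      ((2 * k + 2 * (m * (m - 1)) : ℕ) : ℕ∞) ≤ (SimpleGraph.fromRel D).chromaticNumber →
      ∀ T : Fin (k + 1) → Fin (k + 1) → Prop,
        (∀ a b, T a b → ¬ T b a) →
        (SimpleGraph.fromRel T).IsTree →
        {v | 1 < ((SimpleGraph.fromRel T).neighborSet v).ncard}.ncard ≤ m →
        ∃ f : Fin (k + 1) → Fin n, Function.Injective f ∧ ∀ a b, T a b → D (f a) (f b) := by
  classical
  intro k m n D hk hD hχ T hTas hT hm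
  have hirr : ∀ a, ¬ D a a := fun a h => hD a a h h
  have hχ' : ¬ Col D Finset.univ (2 * k + 2 * (m * (m - 1)) - 1) := by
    apply not_col_of_le_chromaticNumber
    have : 2 * k + 2 * (m * (m - 1)) - 1 + 1 = 2 * k + 2 * (m * (m - 1)) := by omega
    rw [this]
    exact hχ
  rcases Nat.lt_or_ge k 2 with hk1 | hk2
  · -- a single arc
    have hk1' : k = 1 := by omega
    subst hk1'
    have hnc : ¬ Col D Finset.univ 1 := by
      intro h
      exact hχ' (h.mono (Finset.Subset.refl _) (by omega))
    obtain ⟨x, y, hxy⟩ : ∃ x y, D x y := by
      by_contra hcon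
      push Not at hcon
      exact hnc (Col.of_indep (fun x _ y _ => hcon x y))
    have hne : x ≠ y := fun h => hirr x (by rw [← h] at hxy; exact hxy)
    have hirrT : ∀ a, ¬ T a a := fun a h => hTas a a h h
    by_cases h01 : T 0 1
    · refine ⟨![x, y], ?_, ?_⟩
      · intro a b hab
        fin_cases a <;> fin_cases b <;> simp_all
      · intro a b hab
        fin_cases a <;> fin_cases b
        · exact absurd hab (hirrT _)
        · exact hxy
        · exact absurd hab (hTas _ _ h01)
        · exact absurd hab (hirrT _)
    · refine ⟨![y, x], ?_, ?_⟩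
      · intro a b hab
        fin_cases a <;> fin_cases b <;> simp_all
      · intro a b hab
        fin_cases a <;> fin_cases b
        · exact absurd hab (hirrT _)
        · exact absurd hab h01
        · exact hxy
        · exact absurd hab (hirrT _)
  · refine main hk2 hD hTas hT ?_
    intro h
    apply hχ'
    refine h.mono (Finset.Subset.refl _) ?_
    have hcm : (core T).card ≤ m := by
      rw [card_core]; exact hm
    have := Nat.mul_le_mul hcm (Nat.sub_le_sub_right hcm 1)
    omega

end Pool.Agent.Work.MP_6241b7_co.FewNonLeaves
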