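import Pool.Agent.Work.MP_6241b7_co.DoubleStar
import Pool.Agent.Work.MP_6241b7_co.FewRes

/-!
# Burr's conjecture for trees of diameter at most three

Burr's conjecture holds, with the exact bound `2 k`, for every oriented tree with at most two
non-leaf vertices, that is, for all oriented stars and double stars.
-/

set_option autoImplicit false

open Finset Pool.Agent.Work.MP_6241b7_co

namespace Pool.Agent.Work.MP_6241b7_co.DiameterThree

theorem exists_centres {k : ℕ} {T : Fin (k + 1) → Fin (k + 1) → Prop}
    (hTas : ∀ a b, T a b → ¬ T b a) (hT : (SimpleGraph.fromRel T).IsTree) (hk : 2 ≤ k)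
    (hcard : (core T).card = 2) : ∃ s t, s ≠ t ∧ core T = {s, t} ∧ T s t := by
  obtain ⟨s, t, hst, hcore⟩ := Finset.card_eq_two.1 hcard
  have hadj : (SimpleGraph.fromRel T).Adj s t := by
    by_contra hn
    have hall := closed_of_connected hT.connected
      (fun z => z = s ∨ (z ∉ core T ∧ (SimpleGraph.fromRel T).Adj z s)) (by
      rintro a b (rfl | ⟨ha, has⟩) hab
      · right
        refine ⟨?_, hab.symm⟩
        rw [hcore, Finset.mem_insert, Finset.mem_singleton]
        rintro (h | h)
        · exact hab.ne h.symm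
        · exact hn (h ▸ hab)
      · left
        obtain ⟨p, -, -, huniq⟩ := exists_parent hTas hT hk a ha
        rw [SimpleGraph.fromRel_adj] at has hab
        rw [huniq s has.2, huniq b hab.2]) (Or.inl rfl : s = s ∨ _)
    rcases hall t with h | h
    · exact hst h.symm
    · exact h.1 (by rw [hcore]; simp)
  rw [SimpleGraph.fromRel_adj] at hadj
  rcases hadj.2 with h | h
  · exact ⟨s, t, hst, hcore, h⟩
  · exact ⟨t, s, hst.symm, by rw [hcore, Finset.pair_comm], h⟩

theorem main {k n : ℕ} (hk : 2 ≤ k) {D : Fin n → Fin n → Prop} (hD : ∀ x y, D x y → ¬ D y x)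
    {T : Fin (k + 1) → Fin (k + 1) → Prop} (hTas : ∀ a b, T a b → ¬ T b a)
    (hT : (SimpleGraph.fromRel T).IsTree) (hcard : (core T).card = 2)
    (hcol : ¬ Col D Finset.univ (2 * k - 1)) :
    ∃ f : Fin (k + 1) → Fin n, Function.Injective f ∧ ∀ a b, T a b → D (f a) (f b) := by
  classical
  have hirr : ∀ a, ¬ D a a := fun a h => hD a a h h
  have hirrT : ∀ a, ¬ T a a := fun a h => hTas a a h h
  obtain ⟨s, t, hst, hcore, hTst⟩ := exists_centres hTas hT hk hcard
  choose! p hpcore hpadj hpuniq using exists_parent hTas hT hk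
  set LA := (core T)ᶜ.filter (fun w => T s w) with hLA
  set LB := (core T)ᶜ.filter (fun w => T w s) with hLB
  set LC := (core T)ᶜ.filter (fun w => T t w) with hLC
  set LE := (core T)ᶜ.filter (fun w => T w t) with hLE
  have hcase : ∀ w, w ∉ core T → (p w = s ∧ (T s w ∨ T w s)) ∨ (p w = t ∧ (T t w ∨ T w t)) := by
    intro w hw
    have h1 := hpcore w hw
    have h2 := hpadj w hw
    rw [SimpleGraph.fromRel_adj] at h2
    rw [hcore, Finset.mem_insert, Finset.mem_singleton] at h1
    rcases h1 with h | h
    · left; rw [h] at h2; exact ⟨h, h2.2.symm⟩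
    · right; rw [h] at h2; exact ⟨h, h2.2.symm⟩
  have hsp : ∀ w, w ∉ core T → (T s w ∨ T w s) → p w = s := by
    intro w hw h
    exact (hpuniq w hw s h.symm).symm
  have htp : ∀ w, w ∉ core T → (T t w ∨ T w t) → p w = t := by
    intro w hw h
    exact (hpuniq w hw t h.symm).symm
  -- the four classes of leaves are disjoint
  have dAB : Disjoint LA LB := by
    rw [Finset.disjoint_left]
    intro w h1 h2
    exact hTas _ _ (Finset.mem_filter.1 h1).2 (Finset.mem_filter.1 h2).2
  have dCE : Disjoint LC LE := by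
    rw [Finset.disjoint_left]
    intro w h1 h2
    exact hTas _ _ (Finset.mem_filter.1 h1).2 (Finset.mem_filter.1 h2).2
  have dst : Disjoint (LA ∪ LB) (LC ∪ LE) := by
    rw [Finset.disjoint_left]
    intro w h1 h2
    rw [Finset.mem_union, hLA, hLB, Finset.mem_filter, Finset.mem_filter] at h1
    rw [Finset.mem_union, hLC, hLE, Finset.mem_filter, Finset.mem_filter] at h2
    have hw : w ∉ core T := by
      rcases h1 with h | h <;> simpa using h.1
    have e1 := hsp w hw (h1.imp And.right And.right)
    have e2 := htp w hw (h2.imp And.right And.right)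
    exact hst (e1.symm.trans e2)
  have hunion : (LA ∪ LB) ∪ (LC ∪ LE) = (core T)ᶜ := by
    ext w
    simp only [hLA, hLB, hLC, hLE, Finset.mem_union, Finset.mem_filter, Finset.mem_compl]
    constructor
    · rintro ((h | h) | (h | h)) <;> exact h.1
    · intro hw
      rcases hcase w hw with ⟨-, h | h⟩ | ⟨-, h | h⟩
      · exact Or.inl (Or.inl ⟨hw, h⟩)
      · exact Or.inl (Or.inr ⟨hw, h⟩)
      · exact Or.inr (Or.inl ⟨hw, h⟩)
      · exact Or.inr (Or.inr ⟨hw, h⟩)
  have hcards : LA.card + LB.card + LC.card + LE.card + 1 = k := by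
    have h1 : ((LA ∪ LB) ∪ (LC ∪ LE)).card = LA.card + LB.card + (LC.card + LE.card) := by
      rw [Finset.card_union_of_disjoint dst, Finset.card_union_of_disjoint dAB,
        Finset.card_union_of_disjoint dCE]
    rw [hunion, Finset.card_compl, Fintype.card_fin, hcard] at h1
    omega
  obtain ⟨x, y, hxy, A, B, C, E, hA, hB, hC, hE, cA, cB, cC, cE, hyA, hxE, dAC, dAE, dBC, dBE⟩ :=
    ds hD hcards hcol
  have hxyne : x ≠ y := fun h => hirr x (by nth_rewrite 2 [h]; exact hxy)
  have dAB' : Disjoint A B := by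
    rw [Finset.disjoint_left]
    intro v h1 h2
    exact hD _ _ (hA v h1) (hB v h2)
  have dCE' : Disjoint C E := by
    rw [Finset.disjoint_left]
    intro v h1 h2
    exact hD _ _ (hC v h1) (hE v h2)
  -- choose the images of the leaves
  let N : Fin (k + 1) → Finset (Fin n) := fun w =>
    if T s w then A else if T w s then B else if T t w then C else E
  have NA : ∀ w ∈ LA, N w = A := by
    intro w hw
    simp only [N, if_pos (Finset.mem_filter.1 hw).2]
  have NB : ∀ w ∈ LB, N w = B := by
    intro w hw
    have h1 := (Finset.mem_filter.1 hw).2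
    have h2 : ¬ T s w := hTas _ _ h1
    simp only [N, if_neg h2, if_pos h1]
  have NC : ∀ w ∈ LC, N w = C := by
    intro w hw
    have h1 := (Finset.mem_filter.1 hw).2
    have hwc : w ∉ core T := by simpa using (Finset.mem_filter.1 hw).1
    have e := htp w hwc (Or.inl h1)
    have h2 : ¬ T s w := fun h => hst ((hsp w hwc (Or.inl h)).symm.trans e)
    have h3 : ¬ T w s := fun h => hst ((hsp w hwc (Or.inr h)).symm.trans e)
    simp only [N, if_neg h2, if_neg h3, if_pos h1]
  have NE : ∀ w ∈ LE, N w = E := by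
    intro w hw
    have h1 := (Finset.mem_filter.1 hw).2
    have hwc : w ∉ core T := by simpa using (Finset.mem_filter.1 hw).1
    have e := htp w hwc (Or.inr h1)
    have h2 : ¬ T s w := fun h => hst ((hsp w hwc (Or.inl h)).symm.trans e)
    have h3 : ¬ T w s := fun h => hst ((hsp w hwc (Or.inr h)).symm.trans e)
    have h4 : ¬ T t w := hTas _ _ h1
    simp only [N, if_neg h2, if_neg h3, if_neg h4]
  have hc0 : Choice N (∅ : Finset (Fin (k + 1))) (fun _ => x) := ⟨by simp, by simp⟩
  obtain ⟨g1, hg1⟩ := hc0.extend LA (by simp) (by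
    intro w hw
    rw [NA w hw, cA]
    simp)
  rw [Finset.empty_union] at hg1
  obtain ⟨g2, hg2⟩ := hg1.extend LB (fun w hw hw' => Finset.disjoint_left.1 dAB hw' hw) (by
    intro w hw
    rw [NB w hw, cB]
    have : LA.filter (fun w' => ¬ Disjoint (N w') B) = ∅ := by
      rw [Finset.filter_eq_empty_iff]
      intro w' hw'
      rw [NA w' hw']
      simpa using dAB'
    rw [this]; simp)
  obtain ⟨g3, hg3⟩ := hg2.extend LC (fun w hw hw' => Finset.disjoint_left.1 dst hw'
      (Finset.mem_union_left _ hw)) (by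
    intro w hw
    rw [NC w hw, cC]
    have : (LA ∪ LB).filter (fun w' => ¬ Disjoint (N w') C) = ∅ := by
      rw [Finset.filter_eq_empty_iff]
      intro w' hw'
      rcases Finset.mem_union.1 hw' with h | h
      · rw [NA w' h]; simpa using dAC
      · rw [NB w' h]; simpa using dBC
    rw [this]; simp)
  obtain ⟨g, hg⟩ := hg3.extend LE (fun w hw hw' => by
      rcases Finset.mem_union.1 hw' with h | h
      · exact Finset.disjoint_left.1 dst h (Finset.mem_union_right _ hw)
      · exact Finset.disjoint_left.1 dCE h hw) (by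
    intro w hw
    rw [NE w hw, cE]
    have : (LA ∪ LB ∪ LC).filter (fun w' => ¬ Disjoint (N w') E) = ∅ := by
      rw [Finset.filter_eq_empty_iff]
      intro w' hw'
      rcases Finset.mem_union.1 hw' with h | h
      · rcases Finset.mem_union.1 h with h | h
        · rw [NA w' h]; simpa using dAE
        · rw [NB w' h]; simpa using dBE
      · rw [NC w' h]; simpa using dCE'
    rw [this]; simp)
  have hmem : ∀ w, w ∉ core T → w ∈ LA ∪ LB ∪ LC ∪ LE := by
    intro w hw
    have : w ∈ (LA ∪ LB) ∪ (LC ∪ LE) := by rw [hunion]; simpa using hw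
    rwa [← Finset.union_assoc] at this
  let φ : Fin (k + 1) → Fin n := fun i => if i = s then x else y
  have hφs : φ s = x := by simp [φ]
  have hφt : φ t = y := by simp [φ, hst.symm]
  refine glue (D := D) (T := T) (core T) φ g p ?_ ?_ ?_ ?_ hpcore hpuniq ?_ ?_
  · intro i hi j hj h
    rw [hcore, Finset.mem_insert, Finset.mem_singleton] at hi hj
    rcases hi with rfl | rfl <;> rcases hj with rfl | rfl
    · rfl
    · rw [hφs, hφt] at h; exact absurd h hxyne
    · rw [hφs, hφt] at h; exact absurd h.symm hxyne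
    · rfl
  · intro i hi j hj h
    rw [hcore, Finset.mem_insert, Finset.mem_singleton] at hi hj
    rcases hi with rfl | rfl <;> rcases hj with rfl | rfl
    · exact absurd h (hirrT _)
    · rw [hφs, hφt]; exact hxy
    · exact absurd h (hTas _ _ hTst)
    · exact absurd h (hirrT _)
  · intro w hw w' hw' h
    exact hg.2 w (hmem w hw) w' (hmem w' hw') h
  · intro w hw i hi h
    have hgw := hg.1 w (hmem w hw)
    have hi' : φ i = x ∨ φ i = y := by
      rw [hcore, Finset.mem_insert, Finset.mem_singleton] at hi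
      rcases hi with rfl | rfl
      · exact Or.inl hφs
      · exact Or.inr hφt
    rcases hcase w hw with ⟨-, h1 | h1⟩ | ⟨-, h1 | h1⟩
    · rw [NA w (Finset.mem_filter.2 ⟨by simpa using hw, h1⟩)] at hgw
      rcases hi' with e | e
      · rw [h, e] at hgw; exact hirr _ (hA _ hgw)
      · rw [h, e] at hgw; exact hyA hgw
    · rw [NB w (Finset.mem_filter.2 ⟨by simpa using hw, h1⟩)] at hgw
      rcases hi' with e | e
      · rw [h, e] at hgw; exact hirr _ (hB _ hgw)
      · rw [h, e] at hgw; exact hD _ _ hxy (hB _ hgw)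
    · rw [NC w (Finset.mem_filter.2 ⟨by simpa using hw, h1⟩)] at hgw
      rcases hi' with e | e
      · rw [h, e] at hgw; exact hD _ _ hxy (hC _ hgw)
      · rw [h, e] at hgw; exact hirr _ (hC _ hgw)
    · rw [NE w (Finset.mem_filter.2 ⟨by simpa using hw, h1⟩)] at hgw
      rcases hi' with e | e
      · rw [h, e] at hgw; exact hxE hgw
      · rw [h, e] at hgw; exact hirr _ (hE _ hgw)
  · intro w hw hTw
    have hgw := hg.1 w (hmem w hw)
    rcases hcase w hw with ⟨hpw, -⟩ | ⟨hpw, -⟩
    · rw [hpw] at hTw ⊢
      rw [NA w (Finset.mem_filter.2 ⟨by simpa using hw, hTw⟩)] at hgw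
      rw [hφs]; exact hA _ hgw
    · rw [hpw] at hTw ⊢
      rw [NC w (Finset.mem_filter.2 ⟨by simpa using hw, hTw⟩)] at hgw
      rw [hφt]; exact hC _ hgw
  · intro w hw hTw
    have hgw := hg.1 w (hmem w hw)
    rcases hcase w hw with ⟨hpw, -⟩ | ⟨hpw, -⟩
    · rw [hpw] at hTw ⊢
      rw [NB w (Finset.mem_filter.2 ⟨by simpa using hw, hTw⟩)] at hgw
      rw [hφs]; exact hB _ hgw
    · rw [hpw] at hTw ⊢
      rw [NE w (Finset.mem_filter.2 ⟨by simpa using hw, hTw⟩)] at hgw
      rw [hφt]; exact hE _ hgw

/-- **Burr's conjecture holds for all oriented trees of diameter at most three**, that is, for all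
oriented trees with at most two non-leaf vertices. -/
theorem result :
    ∀ (k n : ℕ) (D : Fin n → Fin n → Prop),
      1 ≤ k →
      (∀ x y, D x y → ¬ D y x) →
      ((2 * k : ℕ) : ℕ∞) ≤ (SimpleGraph.fromRel D).chromaticNumber →
      ∀ T : Fin (k + 1) → Fin (k + 1) → Prop,
        (∀ a b, T a b → ¬ T b a) →
        (SimpleGraph.fromRel T).IsTree →
        {v | 1 < ((SimpleGraph.fromRel T).neighborSet v).ncard}.ncard ≤ 2 →
        ∃ f : Fin (k + 1) → Fin n, Function.Injective f ∧ ∀ a b, T a b → D (f a) (f b) := by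
  intro k n D hk hD hχ T hTas hT hm
  rcases Nat.lt_or_ge (core T).card 2 with h2 | h2
  · refine FewNonLeaves.result k 1 n D hk hD ?_ T hTas hT ?_
    · simpa using hχ
    · rw [← card_core]; omega
  · have hcard : (core T).card = 2 := by
      rw [← card_core] at hm; omega
    have hk2 : 2 ≤ k := by
      by_contra hk1
      have hk1' : k = 1 := by omega
      subst hk1'
      obtain ⟨v, hv⟩ := Finset.card_pos.1 (by omega : 0 < (core T).card)
      rw [mem_core] at hv
      have hsub : (SimpleGraph.fromRel T).neighborSet v ⊆ {v}ᶜ := by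
        intro w hw
        rw [SimpleGraph.mem_neighborSet] at hw
        exact hw.ne'
      have h3 := Set.ncard_le_ncard hsub (Set.toFinite _)
      have h4 : ({v}ᶜ : Set (Fin 2)).ncard = 1 := by
        rw [Set.ncard_compl]; simp
      omega
    refine main hk2 hD hTas hT hcard ?_
    apply not_col_of_le_chromaticNumber
    have : 2 * k - 1 + 1 = 2 * k := by omega
    rw [this]
    exact hχ

end Pool.Agent.Work.MP_6241b7_co.DiameterThree
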