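import Pool.Agent.Work.MP_6241b7_co.Core

/-!
# Double stars
-/

set_option autoImplicit false

open Finset

namespace Pool.Agent.Work.MP_6241b7_co

variable {V : Type*} [DecidableEq V]

/-- The leaves of a double star with centres `x → y` can be attached: `a` out-leaves and `b`
in-leaves at `x`, `c` out-leaves and `d` in-leaves at `y`, all inside `S`. -/
def Emb (D : V → V → Prop) (x y : V) (a b c d : ℕ) : Prop :=
  ∃ A B C E : Finset V, (∀ v ∈ A, D x v) ∧ (∀ v ∈ B, D v x) ∧ (∀ v ∈ C, D y v) ∧ (∀ v ∈ E, D v y) ∧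
    A.card = a ∧ B.card = b ∧ C.card = c ∧ E.card = d ∧ y ∉ A ∧ x ∉ E ∧
    Disjoint A C ∧ Disjoint A E ∧ Disjoint B C ∧ Disjoint B E

theorem Emb.rev {D : V → V → Prop} {x y : V} {a b c d : ℕ}
    (h : Emb (fun u v => D v u) y x d c b a) : Emb D x y a b c d := by
  obtain ⟨A, B, C, E, h1, h2, h3, h4, h5, h6, h7, h8, h9, h10, h11, h12, h13, h14⟩ := h
  exact ⟨E, C, B, A, h4, h3, h2, h1, h8, h7, h6, h5, h10, h9, h14.symm, h12.symm, h13.symm,
    h11.symm⟩

theorem pick (X F : Finset V) (n : ℕ) (h : n + F.card ≤ X.card) :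
    ∃ Y ⊆ X, Y.card = n ∧ Disjoint Y F := by
  have h1 : n ≤ (X \ F).card := by
    have := Finset.le_card_sdiff F X
    omega
  obtain ⟨Y, hY, hYc⟩ := Finset.exists_subset_card_eq h1
  exact ⟨Y, hY.trans Finset.sdiff_subset, hYc, Finset.disjoint_of_subset_left hY Finset.sdiff_disjoint⟩

section

variable {D : V → V → Prop} [DecidableRel D] {S : Finset V} {x y : V} {a b c d k : ℕ}

/-- light sides: both in-neighbourhoods -/
theorem emb_out_out (hk : a + b + c + d + 1 = k)
    (hx : k ≤ (S.filter (fun z => D x z)).card) (hy : b + c ≤ (S.filter (fun z => D y z)).card)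
    (hx' : b + d ≤ (S.filter (fun z => D z x)).card)
    (hy' : d + 1 ≤ (S.filter (fun z => D z y)).card) :
    Emb D x y a b c d := by
  obtain ⟨E, hE, hEc, hEd⟩ := pick (S.filter (fun z => D z y)) {x} d (by simpa using hy')
  obtain ⟨B, hB, hBc, hBd⟩ := pick (S.filter (fun z => D z x)) E b (by omega)
  obtain ⟨C, hC, hCc, hCd⟩ := pick (S.filter (fun z => D y z)) B c (by omega)
  obtain ⟨A, hA, hAc, hAd⟩ := pick (S.filter (fun z => D x z)) ({y} ∪ (E ∪ C)) a (by
    have h1 := Finset.card_union_le {y} (E ∪ C)
    have h2 := Finset.card_union_le E C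
    have h3 : ({y} : Finset V).card = 1 := Finset.card_singleton y
    omega)
  rw [Finset.disjoint_union_right, Finset.disjoint_union_right] at hAd
  refine ⟨A, B, C, E, fun v hv => (Finset.mem_filter.1 (hA hv)).2,
    fun v hv => (Finset.mem_filter.1 (hB hv)).2, fun v hv => (Finset.mem_filter.1 (hC hv)).2,
    fun v hv => (Finset.mem_filter.1 (hE hv)).2, hAc, hBc, hCc, hEc, ?_, ?_, hAd.2.2, hAd.2.1,
    hCd.symm, hBd⟩
  · exact fun h => Finset.disjoint_left.1 hAd.1 h (Finset.mem_singleton_self y)
  · exact fun h => Finset.disjoint_left.1 hEd h (Finset.mem_singleton_self x)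

/-- the right centre has huge in-degree, no out-leaves there -/
theorem emb_in (hk : a + b + d + 1 = k)
    (hx : a + 1 ≤ (S.filter (fun z => D x z)).card) (hx' : b ≤ (S.filter (fun z => D z x)).card)
    (hy' : k ≤ (S.filter (fun z => D z y)).card) :
    Emb D x y a b 0 d := by
  obtain ⟨A, hA, hAc, hAd⟩ := pick (S.filter (fun z => D x z)) {y} a (by simpa using hx)
  obtain ⟨B, hB, hBc, hBd⟩ := pick (S.filter (fun z => D z x)) ∅ b (by simpa using hx')
  obtain ⟨E, hE, hEc, hEd⟩ := pick (S.filter (fun z => D z y)) ({x} ∪ (A ∪ B)) d (by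
    have h1 := Finset.card_union_le {x} (A ∪ B)
    have h2 := Finset.card_union_le A B
    have h3 : ({x} : Finset V).card = 1 := Finset.card_singleton x
    omega)
  rw [Finset.disjoint_union_right, Finset.disjoint_union_right] at hEd
  refine ⟨A, B, ∅, E, fun v hv => (Finset.mem_filter.1 (hA hv)).2,
    fun v hv => (Finset.mem_filter.1 (hB hv)).2, by simp,
    fun v hv => (Finset.mem_filter.1 (hE hv)).2, hAc, hBc, rfl, hEc, ?_, ?_,
    Finset.disjoint_empty_right _, hEd.2.1.symm, Finset.disjoint_empty_right _, hEd.2.2.symm⟩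
  · exact fun h => Finset.disjoint_left.1 hAd h (Finset.mem_singleton_self y)
  · exact fun h => Finset.disjoint_left.1 hEd.1 h (Finset.mem_singleton_self x)

end

/-- Case `b, c ≥ 1`. -/
theorem ds_case1 {D : V → V → Prop} [DecidableRel D] (has : ∀ u v, D u v → ¬ D v u) {S : Finset V}
    {a b c d k : ℕ} (hk : a + b + c + d + 1 = k) (hb : 1 ≤ b) (hc : 1 ≤ c)
    (hS : ¬ Col D S (2 * k - 1))
    (hdeg : ∀ x ∈ S, 2 * k - 1 ≤ (S.filter (fun y => D x y)).card +
      (S.filter (fun y => D y x)).card) :
    ∃ x y, D x y ∧ Emb D x y a b c d := by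
  have hirr : ∀ a, ¬ D a a := fun a h => has a a h h
  by_contra hno
  push Not at hno
  -- poor vertices
  have h1 : Col D (S.filter (fun x => (S.filter (fun y => D x y)).card < a + c))
      (2 * (a + c - 1) + 1) := by
    apply col_of_out hirr
    intro x hx
    have e1 := (Finset.mem_filter.1 hx).2
    have e2 := Finset.card_le_card (Finset.filter_subset_filter (fun y => D x y)
      (Finset.filter_subset (fun x => (S.filter (fun y => D x y)).card < a + c) S))
    omega
  have h2 : Col D (S.filter (fun x => (S.filter (fun y => D y x)).card < b + d))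
      (2 * (b + d - 1) + 1) := by
    apply col_of_in hirr
    intro x hx
    have e1 := (Finset.mem_filter.1 hx).2
    have e2 := Finset.card_le_card (Finset.filter_subset_filter (fun y => D y x)
      (Finset.filter_subset (fun x => (S.filter (fun y => D y x)).card < b + d) S))
    omega
  -- rich vertices of large out-degree
  have h3 : Col D (S.filter (fun x => k ≤ (S.filter (fun y => D x y)).card ∧
      b + d ≤ (S.filter (fun y => D y x)).card)) 1 := by
    apply Col.of_indep
    intro x hx y hy hxy
    have ex := (Finset.mem_filter.1 hx).2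
    have ey := (Finset.mem_filter.1 hy).2
    exact hno x y hxy (emb_out_out hk ex.1 (by omega) ex.2 (by omega))
  -- rich vertices of large in-degree
  have h4 : Col D (S.filter (fun x => k ≤ (S.filter (fun y => D y x)).card ∧
      a + c ≤ (S.filter (fun y => D x y)).card)) 1 := by
    apply Col.of_indep
    intro x hx y hy hxy
    have ex := (Finset.mem_filter.1 hx).2
    have ey := (Finset.mem_filter.1 hy).2
    refine hno x y hxy (Emb.rev ?_)
    exact emb_out_out (D := fun u v => D v u) (S := S) (by omega : d + c + b + a + 1 = k) ey.1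
      (by omega) (by omega) (by omega)
  apply hS
  refine ((h1.union h2).union (h3.union h4)).mono ?_ (by omega)
  intro x hx
  have := hdeg x hx
  simp only [Finset.mem_union, Finset.mem_filter]
  by_cases e1 : (S.filter (fun y => D x y)).card < a + c
  · exact Or.inl (Or.inl ⟨hx, e1⟩)
  · by_cases e2 : (S.filter (fun y => D y x)).card < b + d
    · exact Or.inl (Or.inr ⟨hx, e2⟩)
    · by_cases e3 : k ≤ (S.filter (fun y => D x y)).card
      · exact Or.inr (Or.inl ⟨hx, e3, by omega⟩)
      · exact Or.inr (Or.inr ⟨hx, by omega, by omega⟩)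

/-- Case `c = 0`, `b ≥ 1`. -/
theorem ds_case2 {D : V → V → Prop} [DecidableRel D] (has : ∀ u v, D u v → ¬ D v u) {S : Finset V}
    {a b d k : ℕ} (hk : a + b + d + 1 = k) (hb : 1 ≤ b)
    (hS : ¬ Col D S (2 * k - 1))
    (hdeg : ∀ x ∈ S, 2 * k - 1 ≤ (S.filter (fun y => D x y)).card +
      (S.filter (fun y => D y x)).card) :
    ∃ x y, D x y ∧ Emb D x y a b 0 d := by
  have hirr : ∀ a, ¬ D a a := fun a h => has a a h h
  by_contra hno
  push Not at hno
  have h1 : Col D (S.filter (fun x => k ≤ (S.filter (fun y => D y x)).card)) (2 * a + 1) := by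
    apply col_of_out hirr
    intro x hx
    by_contra hcon
    push Not at hcon
    have e1 := (Finset.mem_filter.1 hx).2
    have e2 := Finset.card_le_card (Finset.filter_subset_filter (fun y => D x y)
      (Finset.filter_subset (fun x => k ≤ (S.filter (fun y => D y x)).card) S))
    obtain ⟨y, hy⟩ := Finset.card_pos.1 (lt_of_le_of_lt (Nat.zero_le a) hcon)
    rw [Finset.mem_filter, Finset.mem_filter] at hy
    exact hno x y hy.2 (emb_in (S := S) hk (by omega) (by omega) hy.1.2)
  have h2 : Col D (S.filter (fun x => (S.filter (fun y => D y x)).card < b + d))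
      (2 * (b + d - 1) + 1) := by
    apply col_of_in hirr
    intro x hx
    have e1 := (Finset.mem_filter.1 hx).2
    have e2 := Finset.card_le_card (Finset.filter_subset_filter (fun y => D y x)
      (Finset.filter_subset (fun x => (S.filter (fun y => D y x)).card < b + d) S))
    omega
  have h3 : Col D (S.filter (fun x => k ≤ (S.filter (fun y => D x y)).card ∧
      b + d ≤ (S.filter (fun y => D y x)).card)) 1 := by
    apply Col.of_indep
    intro x hx y hy hxy
    have ex := (Finset.mem_filter.1 hx).2
    have ey := (Finset.mem_filter.1 hy).2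
    exact hno x y hxy (emb_out_out (S := S) (c := 0) (by omega) ex.1 (by omega) ex.2 (by omega))
  apply hS
  refine (h1.union (h2.union h3)).mono ?_ (by omega)
  intro x hx
  have := hdeg x hx
  simp only [Finset.mem_union, Finset.mem_filter]
  by_cases e1 : k ≤ (S.filter (fun y => D y x)).card
  · exact Or.inl ⟨hx, e1⟩
  · by_cases e2 : (S.filter (fun y => D y x)).card < b + d
    · exact Or.inr (Or.inl ⟨hx, e2⟩)
    · exact Or.inr (Or.inr ⟨hx, by omega, by omega⟩)

/-- Case `b = c = 0`: there is no vertex of in-degree at least `k`. -/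
theorem ds_case4_aux {D : V → V → Prop} [DecidableRel D] {S : Finset V}
    {a d k : ℕ} (hk : a + d + 1 = k)
    (hdeg : ∀ x ∈ S, 2 * k - 1 ≤ (S.filter (fun y => D x y)).card +
      (S.filter (fun y => D y x)).card)
    (hno : ∀ x y, D x y → ¬ Emb D x y a 0 0 d) :
    (S.filter (fun x => k ≤ (S.filter (fun y => D y x)).card)) = ∅ := by
  set M := S.filter (fun x => k ≤ (S.filter (fun y => D y x)).card) with hM
  have key : ∀ x ∈ S, (M.filter (fun y => D x y)).card ≤ if x ∈ M then a else 0 := by
    intro x hx
    by_cases hne : (M.filter (fun y => D x y)) = ∅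
    · rw [hne]; simp
    · obtain ⟨y, hy⟩ := Finset.nonempty_iff_ne_empty.2 hne
      rw [Finset.mem_filter, hM, Finset.mem_filter] at hy
      have hout : (S.filter (fun y => D x y)).card ≤ a := by
        by_contra hcon
        exact hno x y hy.2 (emb_in (S := S) (by omega) (by omega) (by omega) hy.1.2)
      have hxM : x ∈ M := by
        rw [hM, Finset.mem_filter]
        have := hdeg x hx
        exact ⟨hx, by omega⟩
      rw [if_pos hxM]
      exact (Finset.card_le_card (Finset.filter_subset_filter _ (Finset.filter_subset _ _))).trans hout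
  have hsum : ∑ y ∈ M, (S.filter (fun x => D x y)).card = ∑ x ∈ S, (M.filter (fun y => D x y)).card := by
    simp only [Finset.card_filter]
    rw [Finset.sum_comm]
  have h1 : k * M.card ≤ ∑ y ∈ M, (S.filter (fun x => D x y)).card := by
    rw [mul_comm, ← smul_eq_mul]
    apply Finset.card_nsmul_le_sum
    intro y hy
    rw [hM, Finset.mem_filter] at hy
    exact hy.2
  have h2 : ∑ x ∈ S, (M.filter (fun y => D x y)).card ≤ a * M.card := by
    calc ∑ x ∈ S, (M.filter (fun y => D x y)).card ≤ ∑ x ∈ S, (if x ∈ M then a else 0) :=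
          Finset.sum_le_sum key
      _ = ∑ x ∈ S.filter (fun x => x ∈ M), a := by rw [Finset.sum_filter]
      _ ≤ a * M.card := by
          rw [Finset.sum_const, smul_eq_mul, mul_comm]
          apply Nat.mul_le_mul_left
          apply Finset.card_le_card
          intro x hx
          exact (Finset.mem_filter.1 hx).2
  by_contra hne
  have hpos : 0 < M.card := Finset.card_pos.2 (Finset.nonempty_iff_ne_empty.2 hne)
  have h3 : k * M.card ≤ a * M.card := by omega
  have h4 : k ≤ a := Nat.le_of_mul_le_mul_right h3 hpos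
  omega

theorem ds_case4 {D : V → V → Prop} [DecidableRel D] {S : Finset V}
    {a d k : ℕ} (hk : a + d + 1 = k)
    (hS : ¬ Col D S (2 * k - 1))
    (hdeg : ∀ x ∈ S, 2 * k - 1 ≤ (S.filter (fun y => D x y)).card +
      (S.filter (fun y => D y x)).card) :
    ∃ x y, D x y ∧ Emb D x y a 0 0 d := by
  by_contra hno
  push Not at hno
  have h1 := ds_case4_aux hk hdeg hno
  have h2 := ds_case4_aux (D := fun u v => D v u) (S := S) (a := d) (d := a) (k := k) (by omega)
    (by intro x hx; have := hdeg x hx; omega)
    (by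
      intro x y hxy h
      exact hno y x hxy (Emb.rev h))
  have hne : S.Nonempty := by
    by_contra hne
    rw [Finset.not_nonempty_iff_eq_empty] at hne
    apply hS
    rw [hne]
    exact ⟨fun _ => 0, by simp, by simp⟩
  obtain ⟨x, hx⟩ := hne
  have e1 : x ∉ S.filter (fun x => k ≤ (S.filter (fun y => D y x)).card) := by rw [h1]; simp
  have e2 : x ∉ S.filter (fun x => k ≤ (S.filter (fun y => D x y)).card) := by rw [h2]; simp
  rw [Finset.mem_filter] at e1 e2
  have := hdeg x hx
  have e1' : ¬ k ≤ (S.filter (fun y => D y x)).card := fun h => e1 ⟨hx, h⟩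
  have e2' : ¬ k ≤ (S.filter (fun y => D x y)).card := fun h => e2 ⟨hx, h⟩
  omega

theorem ds {D : V → V → Prop} [DecidableRel D] (has : ∀ u v, D u v → ¬ D v u) {X : Finset V}
    {a b c d k : ℕ} (hk : a + b + c + d + 1 = k) (hX : ¬ Col D X (2 * k - 1)) :
    ∃ x y, D x y ∧ Emb D x y a b c d := by
  have hirr : ∀ a, ¬ D a a := fun a h => has a a h h
  obtain ⟨S, -, hS, hdeg⟩ := exists_critical hirr hX
  rcases Nat.eq_zero_or_pos b with rfl | hb
  · rcases Nat.eq_zero_or_pos c with rfl | hc
    · exact ds_case4 (by omega) hS hdeg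
    · obtain ⟨x, y, hxy, h⟩ := ds_case2 (D := fun u v => D v u) (fun u v h => has v u h) (S := S)
        (a := d) (b := c) (d := a) (k := k) (by omega) hc (fun h => hS h.reverse)
        (by intro x hx; have := hdeg x hx; omega)
      exact ⟨y, x, hxy, Emb.rev h⟩
  · rcases Nat.eq_zero_or_pos c with rfl | hc
    · exact ds_case2 has (by omega) hb hS hdeg
    · exact ds_case1 has hk hb hc hS hdeg

end Pool.Agent.Work.MP_6241b7_co
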