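import Pool.Agent.Work.MP_6241b7_co.Base

/-!
# Oriented trees in digraphs: independent dominating sets, absorption, directed paths

`half`: for every weighting of a digraph there is an independent set `I` such that the vertices
which lie in `I` or have an out-neighbour in `I` carry at least half of the weight.

`absorb_deg`: few independent sets suffice to give at least `d` out-neighbours to all vertices up to
a set of small weight.

`gallai_roy`: a digraph without a directed path with `m` arcs is `m`-colourable.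
-/

set_option autoImplicit false

open Finset

namespace Pool.Agent.Work.MP_6241b7_co.Frac

section Digraph

variable {V : Type*} [DecidableEq V]

/-- independent sets of a digraph -/
def Ind (D : V → V → Prop) (S : Finset V) : Prop := ∀ x ∈ S, ∀ y ∈ S, ¬ D x y

omit [DecidableEq V] in
theorem exists_pivot (D : V → V → Prop) [DecidableRel D] (w : V → ℝ) (hw : ∀ v, 0 ≤ w v)
    (X : Finset V) (hX : X.Nonempty) :
    ∃ v ∈ X, ∑ u ∈ X with D v u, w u ≤ ∑ u ∈ X with D u v, w u := by
  by_contra hcon
  push Not at hcon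
  have h1 : ∑ v ∈ X, w v * ∑ u ∈ X with D v u, w u =
      ∑ v ∈ X, ∑ u ∈ X, if D v u then w v * w u else 0 := by
    refine Finset.sum_congr rfl fun v _ => ?_
    rw [Finset.mul_sum, Finset.sum_filter]
  have h2 : ∑ v ∈ X, w v * ∑ u ∈ X with D u v, w u =
      ∑ v ∈ X, ∑ u ∈ X, if D v u then w v * w u else 0 := by
    rw [Finset.sum_comm]
    refine Finset.sum_congr rfl fun v _ => ?_
    rw [Finset.mul_sum, Finset.sum_filter]
    refine Finset.sum_congr rfl fun u _ => ?_
    split_ifs <;> ring
  have h3 : ∑ v ∈ X, w v * (∑ u ∈ X with D v u, w u - ∑ u ∈ X with D u v, w u) = 0 := by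
    have h4 : ∀ v ∈ X, w v * (∑ u ∈ X with D v u, w u - ∑ u ∈ X with D u v, w u) =
        w v * ∑ u ∈ X with D v u, w u - w v * ∑ u ∈ X with D u v, w u := fun v _ => by ring
    rw [Finset.sum_congr rfl h4, Finset.sum_sub_distrib, h1, h2, sub_self]
  have h5 := (Finset.sum_eq_zero_iff_of_nonneg (fun v hv =>
    mul_nonneg (hw v) (sub_nonneg.2 (hcon v hv).le))).1 h3
  have h6 : ∀ v ∈ X, w v = 0 := by
    intro v hv
    rcases mul_eq_zero.1 (h5 v hv) with h | h
    · exact h
    · have := hcon v hv
      linarith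
  obtain ⟨v, hv⟩ := hX
  have h7 := hcon v hv
  rw [Finset.sum_eq_zero fun u hu => h6 u (Finset.mem_filter.1 hu).1,
    Finset.sum_eq_zero fun u hu => h6 u (Finset.mem_filter.1 hu).1] at h7
  exact lt_irrefl _ h7

theorem half (D : V → V → Prop) [DecidableRel D] (hirr : ∀ v, ¬ D v v) (w : V → ℝ)
    (hw : ∀ v, 0 ≤ w v) (X : Finset V) :
    ∃ I ⊆ X, Ind D I ∧ (∑ v ∈ X, w v) / 2 ≤ ∑ v ∈ X with (v ∈ I ∨ ∃ u ∈ I, D v u), w v := by
  induction X using Finset.strongInduction with
  | H X ih =>
    rcases X.eq_empty_or_nonempty with rfl | hX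
    · exact ⟨∅, subset_rfl, by simp [Ind], by simp⟩
    obtain ⟨v, hv, hvw⟩ := exists_pivot D w hw X hX
    have hss : X.filter (fun u => u ≠ v ∧ ¬ D v u ∧ ¬ D u v) ⊂ X :=
      Finset.filter_ssubset.2 ⟨v, hv, by simp⟩
    obtain ⟨I, hIX, hI, hIw⟩ := ih _ hss
    have hI' : ∀ u ∈ I, u ∈ X ∧ u ≠ v ∧ ¬ D v u ∧ ¬ D u v := fun u hu => by
      simpa using Finset.mem_filter.1 (hIX hu)
    refine ⟨insert v I, ?_, ?_, ?_⟩
    · intro u hu
      rcases Finset.mem_insert.1 hu with rfl | hu
      · exact hv
      · exact (hI' u hu).1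
    · intro x hx y hy
      rcases Finset.mem_insert.1 hx with rfl | hx1
      · rcases Finset.mem_insert.1 hy with rfl | hy1
        · exact hirr _
        · exact (hI' y hy1).2.2.1
      · rcases Finset.mem_insert.1 hy with rfl | hy1
        · exact (hI' x hx1).2.2.2
        · exact hI x hx1 y hy1
    · have e1 : ∑ u ∈ X, w u ≤ ∑ u ∈ X, ((if u = v then w u else 0) +
          (if D v u then w u else 0) + (if D u v then w u else 0) +
          (if (u ≠ v ∧ ¬ D v u ∧ ¬ D u v) then w u else 0)) := by
        refine Finset.sum_le_sum fun u _ => ?_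
        have h0 := hw u
        by_cases a1 : u = v
        · simp only [a1, if_true]
          rw [← a1]
          split_ifs <;> linarith
        · by_cases a2 : D v u
          · simp only [a1, a2, if_true, if_false]
            split_ifs <;> linarith
          · by_cases a3 : D u v
            · simp only [a1, a2, a3, if_true, if_false]
              split_ifs <;> linarith
            · simp [a1, a2, a3]
      rw [Finset.sum_add_distrib, Finset.sum_add_distrib, Finset.sum_add_distrib,
        ← Finset.sum_filter, ← Finset.sum_filter, ← Finset.sum_filter, ← Finset.sum_filter,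
        Finset.filter_eq' X v, if_pos hv, Finset.sum_singleton] at e1
      have e2 : ∑ u ∈ X, ((if u = v then w u else 0) + (if D u v then w u else 0) +
          (if (u ≠ v ∧ ¬ D v u ∧ ¬ D u v) then (if (u ∈ I ∨ ∃ z ∈ I, D u z) then w u else 0)
            else 0)) ≤
          ∑ u ∈ X, if (u ∈ insert v I ∨ ∃ z ∈ insert v I, D u z) then w u else 0 := by
        refine Finset.sum_le_sum fun u _ => ?_
        have h0 := hw u
        by_cases a1 : u = v
        · have a3 : ¬ D u v := by rw [a1]; exact hirr v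
          simp [a1, hirr]
        · by_cases a3 : D u v
          · have a4 : (u ∈ insert v I ∨ ∃ z ∈ insert v I, D u z) :=
              Or.inr ⟨v, Finset.mem_insert_self _ _, a3⟩
            rw [if_pos a4]
            simp [a1, a3]
          · by_cases a5 : (u ∈ I ∨ ∃ z ∈ I, D u z)
            · have a4 : (u ∈ insert v I ∨ ∃ z ∈ insert v I, D u z) := by
                rcases a5 with a5 | ⟨z, hz, hz2⟩
                · exact Or.inl (Finset.mem_insert_of_mem a5)
                · exact Or.inr ⟨z, Finset.mem_insert_of_mem hz, hz2⟩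
              rw [if_pos a4, if_neg a1, if_neg a3, if_pos a5]
              split_ifs <;> linarith
            · rw [if_neg a1, if_neg a3, if_neg a5]
              split_ifs <;> linarith
      rw [Finset.sum_add_distrib, Finset.sum_add_distrib, ← Finset.sum_filter,
        ← Finset.sum_filter, ← Finset.sum_filter, ← Finset.sum_filter, ← Finset.sum_filter,
        Finset.filter_eq' X v, if_pos hv, Finset.sum_singleton] at e2
      have h0 := hw v
      linarith

/-- Absorption: a union `K` of `M` independent sets decreases the potential geometrically. -/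
theorem absorb (D : V → V → Prop) [DecidableRel D] (hirr : ∀ v, ¬ D v v) (μ : V → ℝ)
    (hμ : ∀ v, 0 ≤ μ v) {η : ℝ} (h0 : 0 ≤ η) (h1 : η ≤ 1) (ρ : Finset V → ℝ) (hemp : ρ ∅ ≤ 0)
    (hun : ∀ A B, ρ (A ∪ B) ≤ ρ A + ρ B) (hind : ∀ S, Ind D S → ρ S ≤ 1) (W : Finset V) (M : ℕ) :
    ∃ K ⊆ W, ρ K ≤ M ∧ ∑ v ∈ W \ K, μ v * (1 - η) ^ (K.filter (fun u => D v u)).card ≤
      (1 - η / 2) ^ M * ∑ v ∈ W, μ v := by
  induction M with
  | zero => exact ⟨∅, Finset.empty_subset _, by simpa using hemp, by simp⟩
  | succ M ih =>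
    obtain ⟨K, hKW, hKρ, hK⟩ := ih
    have hη : 0 ≤ 1 - η := sub_nonneg.2 h1
    obtain ⟨I, hIX, hI, hIw⟩ := half D hirr
      (fun v => μ v * (1 - η) ^ (K.filter (fun u => D v u)).card)
      (fun v => mul_nonneg (hμ v) (pow_nonneg hη _)) (W \ K)
    have hdisj : Disjoint K I := by
      rw [Finset.disjoint_left]
      intro a ha hb
      exact (Finset.mem_sdiff.1 (hIX hb)).2 ha
    refine ⟨K ∪ I, Finset.union_subset hKW (hIX.trans Finset.sdiff_subset), ?_, ?_⟩
    · have e1 := hun K I
      have e2 := hind I hI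
      push_cast
      linarith
    · have key : ∑ v ∈ W \ (K ∪ I), μ v * (1 - η) ^ ((K ∪ I).filter (fun u => D v u)).card ≤
          ∑ v ∈ W \ K, μ v * (1 - η) ^ (K.filter (fun u => D v u)).card -
          η * ∑ v ∈ W \ K with (v ∈ I ∨ ∃ u ∈ I, D v u),
            μ v * (1 - η) ^ (K.filter (fun u => D v u)).card := by
        have hs : W \ (K ∪ I) = (W \ K).filter (fun v => v ∉ I) := by
          ext v
          simp only [Finset.mem_sdiff, Finset.mem_union, Finset.mem_filter, not_or]
          tauto
        rw [hs, Finset.sum_filter, Finset.mul_sum, Finset.sum_filter, ← Finset.sum_sub_distrib]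
        refine Finset.sum_le_sum fun v _ => ?_
        have hw0 : 0 ≤ μ v * (1 - η) ^ (K.filter (fun u => D v u)).card :=
          mul_nonneg (hμ v) (pow_nonneg hη _)
        have hcard : ((K ∪ I).filter (fun u => D v u)).card =
            (K.filter (fun u => D v u)).card + (I.filter (fun u => D v u)).card := by
          rw [Finset.filter_union, Finset.card_union_of_disjoint
            (Finset.disjoint_filter_filter hdisj)]
        by_cases a1 : v ∈ I
        · rw [if_neg (not_not.2 a1), if_pos (Or.inl a1)]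
          nlinarith
        · rw [if_pos a1, hcard, pow_add]
          by_cases a2 : ∃ u ∈ I, D v u
          · rw [if_pos (Or.inr a2)]
            have a3 : 1 ≤ (I.filter (fun u => D v u)).card := by
              obtain ⟨u, hu, hu2⟩ := a2
              exact Finset.card_pos.2 ⟨u, Finset.mem_filter.2 ⟨hu, hu2⟩⟩
            have a4 : (1 - η) ^ (I.filter (fun u => D v u)).card ≤ (1 - η) ^ 1 :=
              pow_le_pow_of_le_one hη (by linarith) a3
            rw [pow_one] at a4
            nlinarith
          · rw [if_neg (fun hc => hc.elim a1 a2)]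
            have a4 : (1 - η) ^ (I.filter (fun u => D v u)).card ≤ 1 :=
              pow_le_one₀ hη (by linarith)
            nlinarith
      have e3 : 0 ≤ 1 - η / 2 := by linarith
      have e4 : (1 - η / 2) * ∑ v ∈ W \ K, μ v * (1 - η) ^ (K.filter (fun u => D v u)).card ≤
          (1 - η / 2) * ((1 - η / 2) ^ M * ∑ v ∈ W, μ v) := mul_le_mul_of_nonneg_left hK e3
      rw [pow_succ]
      have e5 := mul_le_mul_of_nonneg_left hIw h0
      linarith

theorem absorb_deg (D : V → V → Prop) [DecidableRel D] (hirr : ∀ v, ¬ D v v) (μ : V → ℝ)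
    (hμ : ∀ v, 0 ≤ μ v) {η : ℝ} (h0 : 0 ≤ η) (h1 : η < 1) (ρ : Finset V → ℝ) (hemp : ρ ∅ ≤ 0)
    (hun : ∀ A B, ρ (A ∪ B) ≤ ρ A + ρ B) (hind : ∀ S, Ind D S → ρ S ≤ 1)
    (hsmall : ∀ B : Finset V, ∑ v ∈ B, μ v ≤ 1 → ρ B ≤ 1) (W : Finset V) (d M : ℕ)
    (hM : (1 - η / 2) ^ M * ∑ v ∈ W, μ v ≤ (1 - η) ^ d) :
    ∃ K ⊆ W, ρ K ≤ M ∧ ρ ((W \ K).filter (fun v => (K.filter (fun u => D v u)).card < d)) ≤ 1 := by
  obtain ⟨K, hKW, hKρ, hK⟩ := absorb D hirr μ hμ h0 h1.le ρ hemp hun hind W M
  refine ⟨K, hKW, hKρ, hsmall _ ?_⟩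
  have hη : 0 < 1 - η := sub_pos.2 h1
  have e1 : (1 - η) ^ d * ∑ v ∈ (W \ K).filter (fun v => (K.filter (fun u => D v u)).card < d),
      μ v ≤ (1 - η) ^ d * 1 := by
    calc (1 - η) ^ d * ∑ v ∈ (W \ K).filter (fun v => (K.filter (fun u => D v u)).card < d), μ v
        = ∑ v ∈ (W \ K).filter (fun v => (K.filter (fun u => D v u)).card < d),
            μ v * (1 - η) ^ d := by
          rw [Finset.mul_sum]
          exact Finset.sum_congr rfl fun v _ => mul_comm _ _
      _ ≤ ∑ v ∈ (W \ K).filter (fun v => (K.filter (fun u => D v u)).card < d),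
            μ v * (1 - η) ^ (K.filter (fun u => D v u)).card := by
          refine Finset.sum_le_sum fun v hv => ?_
          exact mul_le_mul_of_nonneg_left
            (pow_le_pow_of_le_one hη.le (by linarith) (Finset.mem_filter.1 hv).2.le) (hμ v)
      _ ≤ ∑ v ∈ W \ K, μ v * (1 - η) ^ (K.filter (fun u => D v u)).card :=
          Finset.sum_le_sum_of_subset_of_nonneg (Finset.filter_subset _ _)
            fun v _ _ => mul_nonneg (hμ v) (pow_nonneg hη.le _)
      _ ≤ (1 - η) ^ d * 1 := by rw [mul_one]; exact hK.trans hM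
  exact le_of_mul_le_mul_left e1 (pow_pos hη d)

/-- the number of independent sets used for `d` leaves -/
noncomputable def num (η L : ℝ) (d : ℕ) : ℕ := ⌈2 / η * L + 2 / (1 - η) * d⌉₊

theorem num_le {η L : ℝ} (h0 : 0 < η) (h1 : η < 1) (hL : 0 ≤ L) (d : ℕ) :
    (num η L d : ℝ) ≤ 2 / η * L + 2 / (1 - η) * d + 1 := by
  have h2 : 0 < 1 - η := sub_pos.2 h1
  exact (Nat.ceil_lt_add_one (by positivity)).le

theorem num_spec {η L : ℝ} (h0 : 0 < η) (h1 : η < 1) (d : ℕ) {c : ℝ} (hc0 : 0 ≤ c)
    (hc : c ≤ Real.exp L) : (1 - η / 2) ^ num η L d * c ≤ (1 - η) ^ d := by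
  have h2 : 0 < 1 - η := sub_pos.2 h1
  have h3 : 1 - η / 2 ≤ Real.exp (-(η / 2)) := by
    have := Real.add_one_le_exp (-(η / 2))
    linarith
  have h4 : 0 ≤ 1 - η / 2 := by linarith
  have h5 : 2 / η * L + 2 / (1 - η) * d ≤ num η L d := Nat.le_ceil _
  have h6 : (1 - η / 2) ^ num η L d ≤ Real.exp (-L - η / (1 - η) * d) := by
    calc (1 - η / 2) ^ num η L d ≤ Real.exp (-(η / 2)) ^ num η L d :=
          pow_le_pow_left₀ h4 h3 _
      _ = Real.exp (-(η / 2) * num η L d) := by
          rw [← Real.exp_nat_mul]; ring_nf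
      _ ≤ Real.exp (-L - η / (1 - η) * d) := by
          refine Real.exp_le_exp.2 ?_
          have h7 := mul_le_mul_of_nonneg_left h5 (by positivity : (0 : ℝ) ≤ η / 2)
          have h8 : η / 2 * (2 / η * L + 2 / (1 - η) * d) = L + η / (1 - η) * d := by
            field_simp
          linarith
  have h9 : Real.exp (-(η / (1 - η))) ≤ 1 - η := by
    have h10 := Real.add_one_le_exp (η / (1 - η))
    have h11 : η / (1 - η) + 1 = 1 / (1 - η) := by
      field_simp
      ring
    rw [h11] at h10
    rw [Real.exp_neg]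
    exact inv_le_of_inv_le₀ h2 (by rwa [one_div] at h10)
  calc (1 - η / 2) ^ num η L d * c ≤ Real.exp (-L - η / (1 - η) * d) * Real.exp L :=
        mul_le_mul h6 hc hc0 (Real.exp_pos _).le
    _ = Real.exp (-(η / (1 - η))) ^ d := by
        rw [← Real.exp_add, ← Real.exp_nat_mul]
        ring_nf
    _ ≤ (1 - η) ^ d := pow_le_pow_left₀ (Real.exp_pos _).le h9 _

/-! ### directed paths -/

/-- level functions given by a spanning forest of out-arborescences -/
def Valid (D : V → V → Prop) (W : Finset V) (ℓ : V → ℕ) (par : V → V) : Prop :=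
  ∀ v ∈ W, ℓ v = 0 ∨ (par v ∈ W ∧ D (par v) v ∧ ℓ (par v) + 1 = ℓ v)

/-- a directed path with `m` arcs in `W` -/
def DPath (D : V → V → Prop) (W : Finset V) (m : ℕ) : Prop :=
  ∃ q : ℕ → V, (∀ i ≤ m, q i ∈ W) ∧ (∀ i < m, D (q i) (q (i + 1))) ∧
    ∀ i ≤ m, ∀ j ≤ m, q i = q j → i = j

omit [DecidableEq V] in
theorem Valid.path {D : V → V → Prop} {W : Finset V} {ℓ : V → ℕ} {par : V → V}
    (h : Valid D W ℓ par) {m : ℕ} {v : V} (hv : v ∈ W) (hm : m ≤ ℓ v) : DPath D W m := by
  have key : ∀ i ≤ m, (par^[i] v) ∈ W ∧ ℓ (par^[i] v) + i = ℓ v := by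
    intro i
    induction i with
    | zero => intro _; exact ⟨hv, rfl⟩
    | succ i ih =>
      intro hi
      obtain ⟨h1, h2⟩ := ih (by omega)
      rcases h _ h1 with h3 | ⟨h3, -, h4⟩
      · omega
      · rw [Function.iterate_succ_apply']
        exact ⟨h3, by omega⟩
  refine ⟨fun i => par^[m - i] v, fun i _ => (key _ (by omega)).1, fun i hi => ?_, ?_⟩
  · have h1 : m - i = (m - (i + 1)) + 1 := by omega
    obtain ⟨h2, h3⟩ := key (m - (i + 1)) (by omega)
    change D (par^[m - i] v) (par^[m - (i + 1)] v)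
    rw [h1, Function.iterate_succ_apply']
    rcases h _ h2 with h4 | ⟨-, h4, -⟩
    · omega
    · exact h4
  · intro i hi j hj hij
    have h1 := (key (m - i) (by omega)).2
    have h2 := (key (m - j) (by omega)).2
    have hij' : par^[m - i] v = par^[m - j] v := hij
    rw [hij'] at h1
    omega

omit [DecidableEq V] in
theorem Valid.improve {D : V → V → Prop} (hirr : ∀ v, ¬ D v v) {W : Finset V} {ℓ : V → ℕ}
    {par : V → V} (h : Valid D W ℓ par) {x y : V} (hx : x ∈ W) (hy : y ∈ W) (hxy : D x y)
    (hl : ℓ x = ℓ y) :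
    ∃ (ℓ' : V → ℕ) (par' : V → V), Valid D W ℓ' par' ∧ ∑ v ∈ W, ℓ v < ∑ v ∈ W, ℓ' v := by
  classical
  set R : V → V → Prop := fun a b => b ∈ W ∧ 0 < ℓ b ∧ par b = a with hR
  have hRl : ∀ v, Relation.ReflTransGen R y v → v = y ∨ ℓ y < ℓ v := by
    intro v hv
    induction hv with
    | refl => exact Or.inl rfl
    | tail h1 h2 ih =>
      rename_i b c
      obtain ⟨h3, h4, h5⟩ := h2
      right
      rcases h c h3 with h6 | ⟨-, -, h7⟩
      · omega
      · rw [h5] at h7
        rcases ih with rfl | ih <;> omega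
  have hxY : ¬ Relation.ReflTransGen R y x := by
    intro hc
    rcases hRl x hc with h1 | h1
    · rw [h1] at hxy; exact hirr _ hxy
    · omega
  refine ⟨fun v => if Relation.ReflTransGen R y v then ℓ v + 1 else ℓ v,
    fun v => if v = y then x else par v, ?_, ?_⟩
  · intro v hv
    by_cases hvy : v = y
    · subst hvy
      right
      simp only [if_true, Relation.ReflTransGen.refl, hxY, if_false]
      exact ⟨hx, hxy, by omega⟩
    · simp only [hvy, if_false]
      rcases h v hv with h1 | ⟨h1, h2, h3⟩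
      · have h4 : ¬ Relation.ReflTransGen R y v := by
          intro hc
          rcases hRl v hc with h5 | h5
          · exact hvy h5
          · omega
        left
        rw [if_neg h4]
        exact h1
      · right
        refine ⟨h1, h2, ?_⟩
        by_cases h4 : Relation.ReflTransGen R y v
        · have h5 : Relation.ReflTransGen R y (par v) := by
            rcases Relation.ReflTransGen.cases_tail h4 with h6 | ⟨b, hb, hb2⟩
            · exact absurd h6 hvy
            · rw [hb2.2.2]; exact hb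
          rw [if_pos h4, if_pos h5]
          omega
        · have h5 : ¬ Relation.ReflTransGen R y (par v) := by
            intro hc
            exact h4 (hc.tail ⟨hv, by omega, rfl⟩)
          rw [if_neg h4, if_neg h5]
          exact h3
  · refine Finset.sum_lt_sum (fun v _ => ?_) ⟨y, hy, ?_⟩
    · split_ifs <;> omega
    · simp only [Relation.ReflTransGen.refl, if_true]
      omega

omit [DecidableEq V] in
/-- The theorem of Gallai, Hasse, Roy and Vitaver. -/
theorem gallai_roy {D : V → V → Prop} (hirr : ∀ v, ¬ D v v) {W : Finset V} {m : ℕ}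
    (hno : ¬ DPath D W m) : Col D W m := by
  have key : ∀ s : ℕ, ∀ (ℓ : V → ℕ) (par : V → V), Valid D W ℓ par →
      m * W.card - ∑ v ∈ W, ℓ v = s → Col D W m := by
    intro s
    induction s using Nat.strong_induction_on with
    | _ s ih =>
      intro ℓ par hval hs
      by_cases hp : ∀ x ∈ W, ∀ y ∈ W, D x y → ℓ x ≠ ℓ y
      · refine ⟨ℓ, fun x hx => ?_, hp⟩
        by_contra hc
        exact hno (hval.path hx (not_lt.1 hc))
      · push Not at hp
        obtain ⟨x, hx, y, hy, hxy, hl⟩ := hp
        obtain ⟨ℓ', par', hval', hlt⟩ := hval.improve hirr hx hy hxy hl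
        have hb : ∑ v ∈ W, ℓ' v ≤ m * W.card := by
          rw [mul_comm, ← smul_eq_mul]
          refine Finset.sum_le_card_nsmul _ _ _ fun v hv => ?_
          by_contra hc
          exact hno (hval'.path hv (not_le.1 hc).le)
        exact ih (m * W.card - ∑ v ∈ W, ℓ' v) (by omega) ℓ' par' hval' rfl
  exact key _ (fun _ => 0) id (fun v _ => Or.inl rfl) rfl

theorem rho_col {D : V → V → Prop} (ρ : Finset V → ℝ) (hemp : ρ ∅ ≤ 0)
    (hun : ∀ A B, ρ (A ∪ B) ≤ ρ A + ρ B) (hind : ∀ S, Ind D S → ρ S ≤ 1) {m : ℕ} :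
    ∀ {W : Finset V}, Col D W m → ρ W ≤ m := by
  induction m with
  | zero =>
    intro W h
    obtain ⟨c, h1, -⟩ := h
    have h2 : W = ∅ := by
      rw [Finset.eq_empty_iff_forall_notMem]
      intro v hv
      exact absurd (h1 v hv) (by omega)
    rw [h2]
    simpa using hemp
  | succ m ih =>
    intro W h
    obtain ⟨c, h1, h2⟩ := h
    have h3 : W = W.filter (fun v => c v < m) ∪ W.filter (fun v => ¬ c v < m) :=
      (Finset.filter_union_filter_not_eq _ _).symm
    have h4 : ρ (W.filter (fun v => c v < m)) ≤ m :=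
      ih ⟨c, fun x hx => (Finset.mem_filter.1 hx).2, fun x hx y hy =>
        h2 x (Finset.mem_filter.1 hx).1 y (Finset.mem_filter.1 hy).1⟩
    have h5 : ρ (W.filter (fun v => ¬ c v < m)) ≤ 1 := by
      refine hind _ fun x hx y hy hxy => ?_
      have h6 := Finset.mem_filter.1 hx
      have h7 := Finset.mem_filter.1 hy
      have h8 := h1 x h6.1
      have h9 := h1 y h7.1
      exact h2 x h6.1 y h7.1 hxy (by omega)
    rw [h3]
    push_cast
    have := hun (W.filter (fun v => c v < m)) (W.filter (fun v => ¬ c v < m))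
    linarith

theorem exists_path {D : V → V → Prop} (hirr : ∀ v, ¬ D v v) (ρ : Finset V → ℝ) (hemp : ρ ∅ ≤ 0)
    (hun : ∀ A B, ρ (A ∪ B) ≤ ρ A + ρ B) (hind : ∀ S, Ind D S → ρ S ≤ 1) {m : ℕ} {W : Finset V}
    (hW : (m : ℝ) < ρ W) : DPath D W m := by
  by_contra hc
  exact absurd (rho_col ρ hemp hun hind (gallai_roy hirr hc)) (not_le.2 hW)

theorem sdr {ι : Type*} [DecidableEq ι] (L : Finset ι) (C : ι → Finset V) (g0 : ι → V)
    (h : ∀ w ∈ L, L.card ≤ (C w).card) :
    ∃ g : ι → V, (∀ w ∈ L, g w ∈ C w) ∧ ∀ w ∈ L, ∀ w' ∈ L, g w = g w' → w = w' := by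
  induction L using Finset.induction_on with
  | empty => exact ⟨g0, by simp, by simp⟩
  | insert a L ha ih =>
    obtain ⟨g, hg, hinj⟩ := ih (fun w hw => by
      have := h w (Finset.mem_insert_of_mem hw)
      rw [Finset.card_insert_of_notMem ha] at this
      omega)
    have h1 := h a (Finset.mem_insert_self _ _)
    rw [Finset.card_insert_of_notMem ha] at h1
    obtain ⟨x, hx, hx2⟩ : ∃ x ∈ C a, x ∉ L.image g := by
      by_contra hc
      push Not at hc
      have h2 : C a ⊆ L.image g := fun x hx => hc x hx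
      have h3 := (Finset.card_le_card h2).trans Finset.card_image_le
      omega
    have hne : ∀ w ∈ L, w ≠ a := fun w hw hwa => ha (hwa ▸ hw)
    refine ⟨Function.update g a x, ?_, ?_⟩
    · intro w hw
      rcases Finset.mem_insert.1 hw with rfl | hw
      · rwa [Function.update_self]
      · rw [Function.update_of_ne (hne w hw)]
        exact hg w hw
    · intro w hw w' hw' hww
      rcases Finset.mem_insert.1 hw with rfl | hw1
      · rcases Finset.mem_insert.1 hw' with rfl | hw1'
        · rfl
        · rw [Function.update_self, Function.update_of_ne (hne w' hw1')] at hww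
          exact absurd (hww ▸ Finset.mem_image_of_mem g hw1') hx2
      · rcases Finset.mem_insert.1 hw' with rfl | hw1'
        · rw [Function.update_self, Function.update_of_ne (hne w hw1)] at hww
          exact absurd (hww ▸ Finset.mem_image_of_mem g hw1) hx2
        · rw [Function.update_of_ne (hne w hw1), Function.update_of_ne (hne w' hw1')] at hww
          exact hinj w hw1 w' hw1' hww

end Digraph

end Pool.Agent.Work.MP_6241b7_co.Frac
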