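import Pool.Agent.Work.MP_6241b7_co.FracTree

/-!
# The abstract embedding theorem with optimised parameters, and fractional cliques
-/

set_option autoImplicit false

open Finset

namespace Pool.Agent.Work.MP_6241b7_co.Frac

variable {V : Type*} [DecidableEq V] [Fintype V] {k m : ℕ}

/-- the case in which the tree is a directed path -/
theorem main0 {D : V → V → Prop} [DecidableRel D] (hirr : ∀ v, ¬ D v v)
    {T : Fin (k + 1) → Fin (k + 1) → Prop} (hTas : ∀ a b, T a b → ¬ T b a)
    (hT : (SimpleGraph.fromRel T).IsTree)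
    {p : Fin (m + 1) → Fin (k + 1)} (hp : Function.Injective p)
    (hpT : ∀ i : Fin m, T (p i.castSucc) (p i.succ)) {r : ℕ}
    (hr : ∀ v, ∃ i, (SimpleGraph.fromRel T).dist (p i) v ≤ r) (hkr : k = m ∨ r = 0)
    {μ : V → ℝ} (hμ : ∀ v, 0 ≤ μ v)
    {ρ : Finset V → ℝ} (hemp : ρ ∅ ≤ 0) (hun : ∀ A B, ρ (A ∪ B) ≤ ρ A + ρ B)
    (hind : ∀ S, Ind D S → ρ S ≤ 1) (hsmall : ∀ B : Finset V, ∑ v ∈ B, μ v ≤ 1 → ρ B ≤ 1)
    (hρ : (m : ℝ) < ρ Finset.univ) :
    ∃ f : Fin (k + 1) → V, Function.Injective f ∧ ∀ a b, T a b → D (f a) (f b) := by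
  have hconn := hT.connected
  have hsurj : Function.Surjective p := by
    rcases hkr with rfl | rfl
    · exact (Finite.injective_iff_surjective).1 hp
    · intro v
      obtain ⟨i, hi⟩ := hr v
      exact ⟨i, hconn.dist_eq_zero_iff.1 (by omega)⟩
  have hkm : k = m := by
    have h1 := Fintype.card_of_bijective ⟨hp, hsurj⟩
    rw [Fintype.card_fin, Fintype.card_fin] at h1
    omega
  refine (main (r := 0) (η := 1 / 2) (L := ∑ v, μ v) hirr hTas hT hp hpT ?_ hμ (by norm_num)
    (by norm_num) (Finset.sum_nonneg fun v _ => hμ v) hemp hun hind hsmall ?_ ?_).2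
  · intro v
    obtain ⟨i, hi⟩ := hsurj v
    exact ⟨i, by rw [hi, SimpleGraph.dist_self]⟩
  · have := Real.add_one_le_exp (∑ v, μ v)
    linarith
  · rw [hkm]
    simpa using hρ

theorem main1 {D : V → V → Prop} [DecidableRel D] (hirr : ∀ v, ¬ D v v)
    {T : Fin (k + 1) → Fin (k + 1) → Prop} (hTas : ∀ a b, T a b → ¬ T b a)
    (hT : (SimpleGraph.fromRel T).IsTree)
    {p : Fin (m + 1) → Fin (k + 1)} (hp : Function.Injective p)
    (hpT : ∀ i : Fin m, T (p i.castSucc) (p i.succ)) {r : ℕ}
    (hr : ∀ v, ∃ i, (SimpleGraph.fromRel T).dist (p i) v ≤ r) (hkm : m < k) (hr0 : 0 < r)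
    {μ : V → ℝ} (hμ : ∀ v, 0 ≤ μ v) {L : ℝ} (hL : 0 < L)
    {ρ : Finset V → ℝ} (hemp : ρ ∅ ≤ 0) (hun : ∀ A B, ρ (A ∪ B) ≤ ρ A + ρ B)
    (hind : ∀ S, Ind D S → ρ S ≤ 1) (hsmall : ∀ B : Finset V, ∑ v ∈ B, μ v ≤ 1 → ρ B ≤ 1)
    (hc : ∑ v, μ v ≤ Real.exp L)
    (hρ : (m : ℝ) + 2 * ((k : ℝ) - m) + 6 * √(((k : ℝ) - m) * r * L) + 4 * (r * L) + 4 * r ≤
      ρ Finset.univ) :
    ∃ f : Fin (k + 1) → V, Function.Injective f ∧ ∀ a b, T a b → D (f a) (f b) := by
  have ha : (0 : ℝ) < (k : ℝ) - m := by
    have : (m : ℝ) < k := by exact_mod_cast hkm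
    linarith
  have hr' : (0 : ℝ) < r := by exact_mod_cast hr0
  set a : ℝ := (k : ℝ) - m with haa
  have hs0 : 0 < a * r * L := by positivity
  set s : ℝ := √(a * r * L) with hs
  have hs1 : 0 < s := Real.sqrt_pos.2 hs0
  have hs2 : s * s = a * r * L := Real.mul_self_sqrt hs0.le
  -- the parameter
  have hη0 : 0 < 3 * s / (2 * a + 3 * s) := by positivity
  have hη1 : 3 * s / (2 * a + 3 * s) < 1 := by
    rw [div_lt_one (by positivity)]
    linarith
  refine (main (r := r) (η := 3 * s / (2 * a + 3 * s)) (L := L) hirr hTas hT hp hpT hr hμ hη0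
    hη1 hL.le hemp hun hind hsmall hc (lt_of_lt_of_le ?_ hρ)).2
  have e1 : 2 / (1 - 3 * s / (2 * a + 3 * s)) * a = 2 * a + 3 * s := by
    have : 1 - 3 * s / (2 * a + 3 * s) = 2 * a / (2 * a + 3 * s) := by
      field_simp
      ring
    rw [this]
    field_simp
  have e2 : (r : ℝ) * (4 / (3 * s / (2 * a + 3 * s)) * L + 4) =
      8 / 3 * s + 4 * (r * L) + 4 * r := by
    have h3 : 4 / (3 * s / (2 * a + 3 * s)) = 8 * a / (3 * s) + 4 := by
      field_simp
      ring
    rw [h3]
    have h4 : (r : ℝ) * ((8 * a / (3 * s) + 4) * L + 4) =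
        8 * (a * r * L) / (3 * s) + 4 * (r * L) + 4 * r := by ring
    rw [h4, ← hs2]
    have h5 : 8 * (s * s) / (3 * s) = 8 / 3 * s := by
      field_simp
    rw [h5]
  rw [e1, e2]
  linarith

/-! ### fractional colourings -/

/-- `w` is a fractional colouring of `G`: a nonnegative weighting of the independent sets such that
every vertex lies in independent sets of total weight at least `1`. -/
structure IsFractionalColouring {n : ℕ} (G : SimpleGraph (Fin n)) (w : Finset (Fin n) → ℝ) :
    Prop where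
  nonneg : ∀ S, 0 ≤ w S
  indep : ∀ S, w S ≠ 0 → G.IsIndepSet (S : Set (Fin n))
  cover : ∀ v, 1 ≤ ∑ S with v ∈ S, w S

/-- The fractional chromatic number of a graph: the infimum of the total weights of its fractional
colourings. -/
noncomputable def fractionalChromaticNumber {n : ℕ} (G : SimpleGraph (Fin n)) : ℝ :=
  sInf {t : ℝ | ∃ w, IsFractionalColouring G w ∧ t = ∑ S, w S}

theorem fractionalChromaticNumber_le {n : ℕ} {G : SimpleGraph (Fin n)} {w : Finset (Fin n) → ℝ}
    (hw : IsFractionalColouring G w) : fractionalChromaticNumber G ≤ ∑ S, w S :=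
  csInf_le ⟨0, by rintro t ⟨w, hw, rfl⟩; exact Finset.sum_nonneg fun S _ => hw.nonneg S⟩
    ⟨w, hw, rfl⟩

/-- Linear programming duality: a fractional clique of weight arbitrarily close to the fractional
chromatic number. -/
theorem exists_clique {n : ℕ} (G : SimpleGraph (Fin n)) {c : ℝ} (hc0 : 0 < c)
    (hc : c < fractionalChromaticNumber G) :
    ∃ μ : Fin n → ℝ, (∀ v, 0 ≤ μ v) ∧
      (∀ S : Finset (Fin n), G.IsIndepSet (S : Set (Fin n)) → ∑ v ∈ S, μ v ≤ 1) ∧
      ∑ v, μ v = c := by
  classical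
  let F : (Finset (Fin n) → ℝ) →ₗ[ℝ] (Fin n → ℝ) :=
    { toFun := fun l v => c * ∑ S : Finset (Fin n),
        if (v ∈ S ∧ G.IsIndepSet (S : Set (Fin n))) then l S else 0
      map_add' := by
        intro l l'
        funext v
        simp only [Pi.add_apply]
        rw [← mul_add, ← Finset.sum_add_distrib]
        congr 1
        refine Finset.sum_congr rfl fun S _ => ?_
        split_ifs <;> ring
      map_smul' := by
        intro t l
        funext v
        simp only [Pi.smul_apply, smul_eq_mul, RingHom.id_apply]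
        rw [← mul_assoc, mul_comm t c, mul_assoc]
        congr 1
        rw [Finset.mul_sum]
        refine Finset.sum_congr rfl fun S _ => ?_
        split_ifs <;> ring }
  have hFapp : ∀ l v, F l v = c * ∑ S : Finset (Fin n),
      if (v ∈ S ∧ G.IsIndepSet (S : Set (Fin n))) then l S else 0 := fun _ _ => rfl
  have hFc : Continuous F := LinearMap.continuous_of_finiteDimensional F
  set A : Set (Fin n → ℝ) := F '' stdSimplex ℝ (Finset (Fin n)) with hA
  set B : Set (Fin n → ℝ) := {z | ∀ v, 1 ≤ z v} with hB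
  have hAc : IsCompact A := (isCompact_stdSimplex ℝ (Finset (Fin n))).image hFc
  have hAconv : Convex ℝ A := (convex_stdSimplex ℝ (Finset (Fin n))).linear_image F
  have hBcl : IsClosed B := by
    have h1 : B = ⋂ v, {z | 1 ≤ z v} := by
      ext z
      simp [hB]
    rw [h1]
    exact isClosed_iInter fun v => isClosed_le continuous_const (continuous_apply v)
  have hBconv : Convex ℝ B := by
    intro x hx y hy s t hs ht hst v
    have h1 := mul_le_mul_of_nonneg_left (hx v) hs
    have h2 := mul_le_mul_of_nonneg_left (hy v) ht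
    simp only [Pi.add_apply, Pi.smul_apply, smul_eq_mul]
    linarith
  have hdisj : Disjoint A B := by
    rw [Set.disjoint_left]
    rintro z ⟨l, hl, rfl⟩ hz
    have h1 : IsFractionalColouring G (fun S => if G.IsIndepSet (S : Set (Fin n)) then
        c * l S else 0) := by
      constructor
      · intro S
        split_ifs with h
        · exact mul_nonneg hc0.le (hl.1 _)
        · exact le_rfl
      · intro S hS
        by_contra h
        exact hS (if_neg h)
      · intro v
        have h2 := hz v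
        rw [hFapp] at h2
        refine h2.trans (le_of_eq ?_)
        rw [Finset.sum_filter, Finset.mul_sum]
        refine Finset.sum_congr rfl fun S _ => ?_
        by_cases h3 : v ∈ S <;> by_cases h4 : G.IsIndepSet (S : Set (Fin n)) <;> simp [h3, h4]
    have h2 := fractionalChromaticNumber_le h1
    have h3 : ∑ S : Finset (Fin n), (if G.IsIndepSet (S : Set (Fin n)) then c * l S else 0) ≤
        ∑ S : Finset (Fin n), c * l S := by
      refine Finset.sum_le_sum fun S _ => ?_
      split_ifs
      · exact le_rfl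
      · exact mul_nonneg hc0.le (hl.1 _)
    rw [← Finset.mul_sum, hl.2, mul_one] at h3
    linarith
  obtain ⟨f, u, v, hfA, huv, hfB⟩ :=
    geometric_hahn_banach_compact_closed hAconv hAc hBconv hBcl hdisj
  have hf : ∀ z : Fin n → ℝ, f z = ∑ i, z i * f (Pi.single i 1) := by
    intro z
    have h1 : z = ∑ i, z i • (Pi.single i (1 : ℝ) : Fin n → ℝ) := by
      funext j
      rw [Finset.sum_apply]
      simp [Pi.single_apply]
    conv_lhs => rw [h1]
    rw [map_sum]
    refine Finset.sum_congr rfl fun i _ => ?_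
    rw [map_smul, smul_eq_mul]
  have hone : (fun _ => (1 : ℝ)) ∈ B := fun _ => le_rfl
  have hg0 : ∀ i, 0 ≤ f (Pi.single i 1) := by
    intro i
    by_contra hneg
    push Not at hneg
    have h1 := hfB ((fun _ => (1 : ℝ)) + ((f (fun _ => (1 : ℝ)) - v) / (-f (Pi.single i 1))) •
      (Pi.single i (1 : ℝ) : Fin n → ℝ)) (by
        intro j
        have h2 := hfB _ hone
        have h3 : 0 ≤ (f (fun _ => (1 : ℝ)) - v) / (-f (Pi.single i 1)) :=
          div_nonneg (by linarith) (by linarith)
        simp only [Pi.add_apply, Pi.smul_apply, smul_eq_mul, Pi.single_apply]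
        split_ifs <;> linarith)
    rw [map_add, map_smul, smul_eq_mul] at h1
    have h4 : (f (fun _ => (1 : ℝ)) - v) / (-f (Pi.single i 1)) * f (Pi.single i 1) =
        -(f (fun _ => (1 : ℝ)) - v) := by
      have h5 : f (Pi.single i 1) ≠ 0 := hneg.ne
      field_simp
    rw [h4] at h1
    linarith
  have hFS : ∀ S : Finset (Fin n), G.IsIndepSet (S : Set (Fin n)) →
      c * ∑ i ∈ S, f (Pi.single i 1) < u := by
    intro S hS
    have h1 := hfA (F (Pi.single S 1)) ⟨Pi.single S 1, single_mem_stdSimplex ℝ S, rfl⟩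
    rw [hf] at h1
    refine lt_of_eq_of_lt ?_ h1
    rw [Finset.mul_sum, ← Finset.sum_subset (Finset.subset_univ S)]
    · refine Finset.sum_congr rfl fun i hi => ?_
      rw [hFapp]
      congr 1
      rw [Finset.sum_eq_single S]
      · rw [if_pos ⟨hi, hS⟩, Pi.single_eq_same, mul_one]
      · intro S' _ hS'
        rw [Pi.single_eq_of_ne hS']
        simp
      · intro h
        exact absurd (Finset.mem_univ _) h
    · intro i _ hi
      rw [hFapp, Finset.sum_eq_zero, mul_zero, zero_mul]
      intro S' _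
      by_cases h2 : S' = S
      · rw [h2, if_neg (fun h => hi h.1)]
      · rw [Pi.single_eq_of_ne h2]
        simp
  have hu : 0 < u := by
    have h1 := hFS ∅ (by simp [SimpleGraph.IsIndepSet])
    simpa using h1
  have htot : u < ∑ i, f (Pi.single i 1) := by
    have h1 := hfB _ hone
    rw [hf] at h1
    simp only [one_mul] at h1
    linarith
  have hG : 0 < ∑ i, f (Pi.single i 1) := hu.trans htot
  refine ⟨fun i => c * f (Pi.single i 1) / ∑ i, f (Pi.single i 1), fun i => ?_, fun S hS => ?_, ?_⟩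
  · exact div_nonneg (mul_nonneg hc0.le (hg0 i)) hG.le
  · rw [← Finset.sum_div, ← Finset.mul_sum, div_le_one hG]
    exact ((hFS S hS).trans htot).le
  · rw [← Finset.sum_div, ← Finset.mul_sum]
    field_simp

end Pool.Agent.Work.MP_6241b7_co.Frac
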